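import Pool.Agent.Helper50.SR.Uw
import Pool.Agent.Helper85.AE.Smp

/-!
# Project FQ (MP_0f6f3f_an), layer SOURCES: the nodes

`TwoN r F`: `TwoF r F` (file `Helper43/TA/Defs.lean`) without the Mautner clause (which is false at a node whose complement in the diagram is not connected). `al i`, `i : ι`, restricted roots, `H i ∈ A` with `al i (H j) = δ_ij`, `F i = opg G (TT_to b (H i))` the
one-parameter groups, `e i = exp (H i)`. `exists_uw`: there are `u i`, `w i` in `G` with `e_i⁻ᵐ u_i e_iᵐ → 1`, `e_iᵐ w_i e_i⁻ᵐ → 1`, `⟨u_i, w_i⟩` discrete and not amenable, which commute with `opg G (TT_to b K)` for all `K ∈ A` with `al i K = 0`. `twoN_node`: so `TwoN` for all nodes.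
-/

set_option autoImplicit false

open MeasureTheory Filter Topology Matrix

namespace Pool.Agent.Helper50.FQ

open Pool.Agent.Helper96.SA Pool.Agent.Helper96.FR Pool.Agent.Helper43.TA Pool.Agent.Helper43.TZ Pool.Agent.Helper96.TO Pool.Agent.Helper50.SR

/-- `r` commuting elements in the centraliser of `F` with contracted nonamenable groups. -/
def TwoN {G1 : Type} [Group G1] [TopologicalSpace G1] (r : ℕ) (F : Subgroup G1) : Prop :=
  ∃ a u w : Fin r → G1, (∀ i, ∀ f ∈ F, f * a i = a i * f ∧ f * u i = u i * f ∧ f * w i = w i * f) ∧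
    (∀ i j, a i * a j = a j * a i) ∧ (∀ i j, i ≠ j → a i * u j = u j * a i ∧ a i * w j = w j * a i) ∧
    (∀ i, Tendsto (fun m : ℕ => (a i ^ m)⁻¹ * u i * a i ^ m) atTop (𝓝 1) ∧
      Tendsto (fun m : ℕ => a i ^ m * w i * (a i ^ m)⁻¹) atTop (𝓝 1) ∧
      DiscreteTopology (Subgroup.closure {u i, w i}) ∧ Pool.Agent.Helper90.RK.NonAm (Subgroup.closure {u i, w i}))

theorem TwoN.of_twoF {G1 : Type} [Group G1] [TopologicalSpace G1] {r : ℕ} {F : Subgroup G1} (h : TwoF r F) : TwoN r F := by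
  obtain ⟨a, u, w, h1, h2, h3, h4, -⟩ := h
  exact ⟨a, u, w, h1, h2, h3, h4⟩

section Mat

variable {N : ℕ} {G : Subgroup (GL (Fin N) ℝ)}

private theorem ex_comm50 {X Y : Mat N} (h : X * Y = Y * X) : ex X * ex Y = ex Y * ex X := by
  rw [← ex_add h, ← ex_add h.symm, add_comm]

/-- the spectral theorem -/
private theorem spec50' {H : Mat N} (hs : Hᵀ = H) : ∃ (O : Mat N) (d : Fin N → ℝ), Oᵀ * O = 1 ∧ O * Oᵀ = 1 ∧
    H = O * diagonal d * Oᵀ := by
  have hH : H.IsHermitian := by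
    unfold Matrix.IsHermitian
    rw [Matrix.conjTranspose_eq_transpose_of_trivial, hs]
  refine ⟨hH.eigenvectorUnitary, hH.eigenvalues, ?_, ?_, ?_⟩
  · have h := Unitary.coe_star_mul_self hH.eigenvectorUnitary
    rwa [Matrix.star_eq_conjTranspose, Matrix.conjTranspose_eq_transpose_of_trivial] at h
  · have h := Unitary.coe_mul_star_self hH.eigenvectorUnitary
    rwa [Unitary.coe_star, Matrix.star_eq_conjTranspose, Matrix.conjTranspose_eq_transpose_of_trivial] at h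
  · have h := hH.spectral_theorem
    rw [Unitary.conjStarAlgAut_apply, Matrix.star_eq_conjTranspose,
      Matrix.conjTranspose_eq_transpose_of_trivial] at h
    exact h

private theorem smul_spec50' (O : Mat N) (d : Fin N → ℝ) (t : ℝ) :
    t • (O * diagonal d * Oᵀ) = O * diagonal (fun i => t * d i) * Oᵀ := by
  have e : diagonal (fun i => t * d i) = t • diagonal d := by
    rw [← Matrix.diagonal_smul]
    rfl
  rw [e, Matrix.mul_smul, Matrix.smul_mul]

/-- conjugation by the exponential -/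
private theorem conj50' {H X : Mat N} (hs : Hᵀ = H) (h : H * X - X * H = X) (t : ℝ) :
    NormedSpace.exp (-(t • H)) * X * NormedSpace.exp (t • H) = Real.exp (-t) • X := by
  obtain ⟨O, d, h1, h2, rfl⟩ := spec50' hs
  have e1 : -(t • (O * diagonal d * Oᵀ)) = O * diagonal (fun i => -t * d i) * Oᵀ := by
    rw [← neg_smul, smul_spec50']
  rw [e1, smul_spec50', exp_diag O h1 h2, exp_diag O h1 h2]
  -- in the basis of eigenvectors
  have key : diagonal (fun i => Real.exp (-t * d i)) * (Oᵀ * X * O) * diagonal (fun i => Real.exp (t * d i)) =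
      Real.exp (-t) • (Oᵀ * X * O) := by
    have h3 : diagonal d * (Oᵀ * X * O) - (Oᵀ * X * O) * diagonal d = Oᵀ * X * O := by
      have h4 : Oᵀ * (O * diagonal d * Oᵀ * X - X * (O * diagonal d * Oᵀ)) * O = Oᵀ * X * O := by rw [h]
      refine Eq.trans ?_ h4
      rw [Matrix.mul_sub, Matrix.sub_mul]
      congr 1
      · calc diagonal d * (Oᵀ * X * O) = 1 * diagonal d * Oᵀ * X * O := by
              rw [Matrix.one_mul]; simp only [Matrix.mul_assoc]
          _ = Oᵀ * O * diagonal d * Oᵀ * X * O := by rw [h1]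
          _ = _ := by simp only [Matrix.mul_assoc]
      · calc Oᵀ * X * O * diagonal d = Oᵀ * X * O * diagonal d * 1 := by rw [Matrix.mul_one]
          _ = Oᵀ * X * O * diagonal d * (Oᵀ * O) := by rw [h1]
          _ = _ := by simp only [Matrix.mul_assoc]
    ext i j
    have h5 := congrFun (congrFun h3 i) j
    rw [Matrix.sub_apply, Matrix.diagonal_mul, Matrix.mul_diagonal] at h5
    rw [Matrix.mul_diagonal, Matrix.diagonal_mul, Matrix.smul_apply, smul_eq_mul]
    set y := (Oᵀ * X * O) i j with hy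
    by_cases hy0 : y = 0
    · rw [hy0]
      ring
    · have h6 : d i - d j = 1 := by
        have : (d i - d j) * y = 1 * y := by linarith
        exact mul_right_cancel₀ hy0 this
      have h7 : Real.exp (-t * d i) * y * Real.exp (t * d j) = Real.exp (-t * d i + t * d j) * y := by
        rw [Real.exp_add]
        ring
      rw [h7]
      congr 2
      have : d i = d j + 1 := by linarith
      rw [this]
      ring
  calc O * diagonal (fun i => Real.exp (-t * d i)) * Oᵀ * X * (O * diagonal (fun i => Real.exp (t * d i)) * Oᵀ) =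
      O * (diagonal (fun i => Real.exp (-t * d i)) * (Oᵀ * X * O) * diagonal (fun i => Real.exp (t * d i))) * Oᵀ := by
        simp only [Matrix.mul_assoc]
    _ = O * (Real.exp (-t) • (Oᵀ * X * O)) * Oᵀ := by rw [key]
    _ = Real.exp (-t) • (O * Oᵀ * X * (O * Oᵀ)) := by
        rw [Matrix.mul_smul, Matrix.smul_mul]
        simp only [Matrix.mul_assoc]
    _ = Real.exp (-t) • X := by rw [h2, Matrix.one_mul, Matrix.mul_one]

private theorem conjT50' {H X : Mat N} (hs : Hᵀ = H) (h : H * X - X * H = X) (t : ℝ) :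
    NormedSpace.exp (t • H) * Xᵀ * NormedSpace.exp (-(t • H)) = Real.exp (-t) • Xᵀ := by
  have h1 := congrArg Matrix.transpose (conj50' hs h t)
  rw [Matrix.transpose_mul, Matrix.transpose_mul, Matrix.transpose_smul, ← Matrix.exp_transpose,
    ← Matrix.exp_transpose, Matrix.transpose_neg, Matrix.transpose_smul, hs, ← Matrix.mul_assoc] at h1
  exact h1

private theorem gc50' {H X : Mat N} (hs : Hᵀ = H) (h : H * X - X * H = X) (s t : ℝ) :
    (ex (t • H))⁻¹ * ex (s • X) * ex (t • H) = ex ((s * Real.exp (-t)) • X) := by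
  have h1 := ex_conj ((ex (t • H))⁻¹) (s • X)
  rw [inv_inv] at h1
  rw [← h1]
  congr 1
  have e2 : (((ex (t • H))⁻¹ : GL (Fin N) ℝ) : Mat N) = NormedSpace.exp (-(t • H)) := by
    rw [← ex_neg, ex_coe]
  rw [ex_coe, e2, Matrix.mul_smul, Matrix.smul_mul, conj50' hs h, smul_smul]

private theorem gcT50' {H X : Mat N} (hs : Hᵀ = H) (h : H * X - X * H = X) (s t : ℝ) :
    ex (t • H) * ex (s • Xᵀ) * (ex (t • H))⁻¹ = ex ((s * Real.exp (-t)) • Xᵀ) := by
  have h1 := ex_conj (ex (t • H)) (s • Xᵀ)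
  rw [← h1]
  congr 1
  have e2 : (((ex (t • H))⁻¹ : GL (Fin N) ℝ) : Mat N) = NormedSpace.exp (-(t • H)) := by
    rw [← ex_neg, ex_coe]
  rw [ex_coe, e2, Matrix.mul_smul, Matrix.smul_mul, conjT50' hs h, smul_smul]

private theorem tend50' (X : Mat N) (s : ℝ) {a : ℝ} (ha : 0 < a) :
    Tendsto (fun m : ℕ => ex ((s * Real.exp (-((m : ℝ) * a))) • X)) atTop (𝓝 1) := by
  have h1 : Tendsto (fun m : ℕ => (s * Real.exp (-((m : ℝ) * a))) • X) atTop (𝓝 ((s * 0) • X)) := by
    refine Tendsto.smul_const (Tendsto.const_mul s ?_) X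
    exact (Real.tendsto_exp_neg_atTop_nhds_zero).comp (tendsto_natCast_atTop_atTop.atTop_mul_const ha)
  rw [mul_zero, zero_smul] at h1
  have h2 := (continuous_ex.tendsto (0 : Mat N)).comp h1
  rwa [ex_zero] at h2

private theorem map50' (x y : G) : (Subgroup.closure {x, y}).map G.subtype =
    Subgroup.closure {(x : GL (Fin N) ℝ), (y : GL (Fin N) ℝ)} := by
  rw [MonoidHom.map_closure, Set.image_pair]
  rfl

private theorem disc50' (x y : G) (h : DiscreteTopology (Subgroup.closure {(x : GL (Fin N) ℝ), (y : GL (Fin N) ℝ)})) :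
    DiscreteTopology (Subgroup.closure {x, y}) := by
  rw [← map50'] at h
  let f : Subgroup.closure {x, y} → (Subgroup.closure {x, y}).map G.subtype :=
    fun z => ⟨((z : G) : GL (Fin N) ℝ), ⟨z, z.2, rfl⟩⟩
  have hf : Continuous f := by
    refine Continuous.subtype_mk ?_ _
    exact continuous_subtype_val.comp continuous_subtype_val
  refine DiscreteTopology.of_continuous_injective hf fun z z' hzz => ?_
  have h2 : (f z : GL (Fin N) ℝ) = f z' := by rw [hzz]
  exact Subtype.ext (Subtype.ext h2)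

private theorem nonam50' (x y : G) (h : Pool.Agent.Helper90.RK.NonAm (Subgroup.closure {(x : GL (Fin N) ℝ), (y : GL (Fin N) ℝ)})) :
    Pool.Agent.Helper90.RK.NonAm (Subgroup.closure {x, y}) := by
  rw [Pool.Agent.Helper66.RK.nonAm_iff] at h ⊢
  intro hA
  apply h
  rw [← map50']
  exact hA.congr ((Subgroup.closure {x, y}).equivMapOfInjective G.subtype G.subtype_injective)

/-- Two one-parameter groups commute. -/
theorem opg_comm {H K : Mat N} (h : H * K = K * H) : ∀ f ∈ opg G H, ∀ g ∈ opg G K, f * g = g * f := by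
  rintro f ⟨s, hs⟩ g ⟨t, ht⟩
  refine Subtype.ext ?_
  rw [Subgroup.coe_mul, Subgroup.coe_mul, hs, ht]
  refine ex_comm50 ?_
  rw [Matrix.smul_mul, Matrix.mul_smul, Matrix.smul_mul, Matrix.mul_smul, h, smul_comm]

/-- The two elements, for a flat of symmetric matrices; they commute with the kernel of the root. -/
theorem uw_mat' (hG : IsClosed (G : Set (GL (Fin N) ℝ))) (ht : ∀ X ∈ lie G, Xᵀ ∈ lie G)
    {V : Submodule ℝ (Mat N)} (hV : IsFlat G V)
    (hmax : ∀ Y ∈ lie G, Yᵀ = Y → (∀ H ∈ V, Y * H = H * Y) → Y ∈ V) {C : Mat N} (hC : C ∈ Rt G V)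
    {H : Mat N} (hH : H ∈ V) (hCH : 0 < (C * H).trace) {e : G}
    (he : (e : GL (Fin N) ℝ) = ex H) :
    ∃ u w : G, (∀ K ∈ V, (C * K).trace = 0 → ∀ g ∈ opg G K, g * u = u * g ∧ g * w = w * g) ∧
      Tendsto (fun m : ℕ => (e ^ m)⁻¹ * u * e ^ m) atTop (𝓝 1) ∧ Tendsto (fun m : ℕ => e ^ m * w * (e ^ m)⁻¹) atTop (𝓝 1) ∧
      DiscreteTopology (Subgroup.closure {u, w}) ∧ Pool.Agent.Helper90.RK.NonAm (Subgroup.closure {u, w}) ∧
      ∃ (X : Mat N) (s : ℝ), Wt G V C X ∧ (u : GL (Fin N) ℝ) = ex (s • X) ∧ (w : GL (Fin N) ℝ) = ex (s • Xᵀ) := by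
  obtain ⟨-, -, X, hX0, hX, hXw⟩ := hC
  obtain ⟨a, ha⟩ : ∃ a, a = (C * H).trace := ⟨_, rfl⟩
  have ha0 : 0 < a := by rw [ha]; exact hCH
  have hs : Hᵀ = H := hV.symm _ hH
  have hs' : (a⁻¹ • H)ᵀ = a⁻¹ • H := by rw [Matrix.transpose_smul, hs]
  have h1 : (a⁻¹ • H) * X - X * (a⁻¹ • H) = X := by
    rw [Matrix.smul_mul, Matrix.mul_smul, ← smul_sub, hXw H hH, ← ha, smul_smul, inv_mul_cancel₀ ha0.ne', one_smul]
  obtain ⟨-, c, hc, h2⟩ := sl2_of_root hG ht hV hmax (V.smul_mem a⁻¹ hH) hX hX0 (fun H' hH' => ⟨_, hXw H' hH'⟩) h1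
  obtain ⟨s, -, hdis, hna⟩ := discrete_nonAm X hX0 c hc h2
  let u : G := ⟨ex (s • X), mem_lie.1 hX s⟩
  let w : G := ⟨ex (s • Xᵀ), mem_lie.1 (ht _ hX) s⟩
  have hem : ∀ m : ℕ, ex H ^ m = ex ((m * a) • (a⁻¹ • H)) := by
    intro m
    rw [← ex_nsmul, smul_smul, mul_assoc, mul_inv_cancel₀ ha0.ne', mul_one]
  refine ⟨u, w, ?_, ?_, ?_, disc50' u w hdis, nonam50' u w hna, X, s, ⟨hX, hXw⟩, rfl, rfl⟩
  · intro K hK hCK
    have hKX : K * X = X * K := by
      have h3 := hXw K hK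
      rw [hCK, zero_smul] at h3
      exact sub_eq_zero.1 h3
    have hKT : K * Xᵀ = Xᵀ * K := by
      have h3 := congrArg Matrix.transpose hKX
      rw [Matrix.transpose_mul, Matrix.transpose_mul, hV.symm _ hK] at h3
      exact h3.symm
    rintro g ⟨t, hg⟩
    refine ⟨Subtype.ext ?_, Subtype.ext ?_⟩
    · show (g : GL (Fin N) ℝ) * ex (s • X) = ex (s • X) * (g : GL (Fin N) ℝ)
      rw [hg]
      refine ex_comm50 ?_
      rw [Matrix.smul_mul, Matrix.mul_smul, Matrix.smul_mul, Matrix.mul_smul, hKX, smul_comm]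
    · show (g : GL (Fin N) ℝ) * ex (s • Xᵀ) = ex (s • Xᵀ) * (g : GL (Fin N) ℝ)
      rw [hg]
      refine ex_comm50 ?_
      rw [Matrix.smul_mul, Matrix.mul_smul, Matrix.smul_mul, Matrix.mul_smul, hKT, smul_comm]
  · rw [tendsto_subtype_rng]
    refine (tend50' X s ha0).congr fun m => ?_
    show _ = (((e : GL (Fin N) ℝ)) ^ m)⁻¹ * ex (s • X) * ((e : GL (Fin N) ℝ)) ^ m
    rw [he, hem]
    exact (gc50' hs' h1 s (m * a)).symm
  · rw [tendsto_subtype_rng]
    refine (tend50' Xᵀ s ha0).congr fun m => ?_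
    show _ = ((e : GL (Fin N) ℝ)) ^ m * ex (s • Xᵀ) * (((e : GL (Fin N) ℝ)) ^ m)⁻¹
    rw [he, hem]
    exact (gcT50' hs' h1 s (m * a)).symm

end Mat

variable {L : Type} [LieRing L] [LieAlgebra ℝ L] {N : ℕ} {θ : L ≃ₗ⁅ℝ⁆ L} {b : Module.Basis (Fin N) ℝ L}
  {G : Subgroup (GL (Fin N) ℝ)} {A : Submodule ℝ L}

/-- The two elements of a root `α` and `H ∈ A`, `0 < α H`. -/
theorem exists_uw (h : CartanBasis θ b) (hG : IsAdj b G) (hA : MaxFlat θ A) {α : Module.Dual ℝ A} (hα : α ∈ rootsL A) {H : A}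
    (hv : 0 < α H) {e : G} (he : (e : GL (Fin N) ℝ) = ex (TT_to b (H : L))) :
    ∃ u w : G, (∀ K : A, α K = 0 → ∀ g ∈ opg G (TT_to b (K : L)), g * u = u * g ∧ g * w = w * g) ∧
      Tendsto (fun m : ℕ => (e ^ m)⁻¹ * u * e ^ m) atTop (𝓝 1) ∧ Tendsto (fun m : ℕ => e ^ m * w * (e ^ m)⁻¹) atTop (𝓝 1) ∧
      DiscreteTopology (Subgroup.closure {u, w}) ∧ Pool.Agent.Helper90.RK.NonAm (Subgroup.closure {u, w}) := by
  have hSA := selfAdj_of_aut h hG
  obtain ⟨C, hC, hCt⟩ := exists_C h hG hA hα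
  obtain ⟨u, w, h1, h2, h3, h4, h5, -⟩ := uw_mat' hSA.closed (fun X hX => lie_transpose hSA hX) (isFlat_map h hG hA) (max_map h hG hA) hC
    ⟨H, H.2, rfl⟩ (by rw [hCt]; exact hv) he
  exact ⟨u, w, fun K hK => h1 _ ⟨K, K.2, rfl⟩ (by rw [hCt]; exact hK), h2, h3, h4, h5⟩

/-- The one-parameter groups of elements of `A` commute. -/
theorem opg_comm_A (h : CartanBasis θ b) (hG : IsAdj b G) (hA : MaxFlat θ A) (H K : A) :
    ∀ f ∈ opg G (TT_to b (H : L)), ∀ g ∈ opg G (TT_to b (K : L)), f * g = g * f :=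
  opg_comm ((isFlat_map h hG hA).comm _ ⟨H, H.2, rfl⟩ _ ⟨K, K.2, rfl⟩)

theorem mem_opg_self {H : Mat N} {e : G} (he : (e : GL (Fin N) ℝ) = ex H) : e ∈ opg G H := ⟨1, by rw [one_smul]; exact he⟩

/-- **The nodes.** `al i` roots, `H i` the dual basis, `e i = exp (H i)`. -/
theorem exists_nodes (h : CartanBasis θ b) (hG : IsAdj b G) (hA : MaxFlat θ A) {ι : Type} [DecidableEq ι] {al : ι → Module.Dual ℝ A}
    (hr : ∀ i, al i ∈ rootsL A) {H : ι → A} (hH : ∀ i j, al i (H j) = if i = j then 1 else 0) {e : ι → G}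
    (he : ∀ i, (e i : GL (Fin N) ℝ) = ex (TT_to b (H i : L))) :
    ∃ u w : ι → G, (∀ i j, i ≠ j → ∀ f ∈ opg G (TT_to b (H j : L)), f * u i = u i * f ∧ f * w i = w i * f) ∧
      ∀ i, Tendsto (fun m : ℕ => (e i ^ m)⁻¹ * u i * e i ^ m) atTop (𝓝 1) ∧ Tendsto (fun m : ℕ => e i ^ m * w i * (e i ^ m)⁻¹) atTop (𝓝 1) ∧
        DiscreteTopology (Subgroup.closure {u i, w i}) ∧ Pool.Agent.Helper90.RK.NonAm (Subgroup.closure {u i, w i}) := by
  have key : ∀ i, ∃ u w : G, (∀ K : A, al i K = 0 → ∀ g ∈ opg G (TT_to b (K : L)), g * u = u * g ∧ g * w = w * g) ∧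
      Tendsto (fun m : ℕ => (e i ^ m)⁻¹ * u * e i ^ m) atTop (𝓝 1) ∧ Tendsto (fun m : ℕ => e i ^ m * w * (e i ^ m)⁻¹) atTop (𝓝 1) ∧
      DiscreteTopology (Subgroup.closure {u, w}) ∧ Pool.Agent.Helper90.RK.NonAm (Subgroup.closure {u, w}) :=
    fun i => exists_uw h hG hA (hr i) (by rw [hH, if_pos rfl]; exact zero_lt_one) (he i)
  choose u w h1 h2 using key
  exact ⟨u, w, fun i j hij => h1 i (H j) (by rw [hH, if_neg hij]), h2⟩

/-- **`TwoN` at every node.** -/
theorem twoN_node (h : CartanBasis θ b) (hG : IsAdj b G) (hA : MaxFlat θ A) {n : ℕ} {al : Fin (n + 1) → Module.Dual ℝ A}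
    (hr : ∀ i, al i ∈ rootsL A) {H : Fin (n + 1) → A} (hH : ∀ i j, al i (H j) = if i = j then 1 else 0) (k : Fin (n + 1)) :
    TwoN n (opg G (TT_to b (H k : L))) := by
  obtain ⟨e, he⟩ : ∃ e : Fin (n + 1) → G, ∀ i, (e i : GL (Fin N) ℝ) = ex (TT_to b (H i : L)) :=
    ⟨fun i => ⟨ex (TT_to b (H i : L)), hG.exp_ad _⟩, fun _ => rfl⟩
  obtain ⟨u, w, h1, h2⟩ := exists_nodes h hG hA hr hH he
  refine ⟨fun i => e (k.succAbove i), fun i => u (k.succAbove i), fun i => w (k.succAbove i), fun i f hf => ?_, fun i j => ?_, fun i j hij => ?_,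
    fun i => h2 _⟩
  · have h3 := h1 (k.succAbove i) k (Fin.succAbove_ne k i) f hf
    exact ⟨opg_comm_A h hG hA _ _ f hf _ (mem_opg_self (he _)), h3.1, h3.2⟩
  · exact opg_comm_A h hG hA _ _ _ (mem_opg_self (he _)) _ (mem_opg_self (he _))
  · have h3 := h1 (k.succAbove j) (k.succAbove i) (fun h4 => hij (Fin.succAbove_right_injective h4).symm) _ (mem_opg_self (he _))
    exact h3

end Pool.Agent.Helper50.FQ
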