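import Pool.Agent.Helper50.FQ.CelM
import Pool.Agent.Helper46.FQ.Rt
import Pool.Agent.Helper2.BC.Fin

/-!
# Project FQ (MP_0f6f3f_an): the big cell with compactness

`cell_pt`: if `g⁻¹` is transversal to `H` then `g = x z y` with `z` in the centralizer of `H`, `a_t x a_t⁻¹ → 1` and `a_t⁻¹ y a_t → 1`, `a_t = exp(t ad H)` (from `dense_prod` of helper2). `cell_of`: the clause `cell` of the group data: on the compact
set of the `g ∈ B` with `δ ≤ |f g|` (`f` continuous, `f g ≠ 0` implies transversality) `x`, `z`, `y` depend continuously on `g`.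
-/

set_option autoImplicit false

open Matrix Set Filter Topology

namespace Pool.Agent.Helper50.FQ

open Pool.Agent.Helper96.SA Pool.Agent.Helper96.TO Pool.Agent.Helper35.TZ Pool.Agent.Helper46.FQ Pool.Agent.Helper2.BC

variable {L : Type} [LieRing L] [LieAlgebra ℝ L] {N : ℕ} {θ : L ≃ₗ⁅ℝ⁆ L} {b e : Module.Basis (Fin N) ℝ L} {H : L} {d : Fin N → ℝ}

/-- The elements of `U₋` are contracted. -/
theorem uu_tend (hE : EB H e d) {I : Set (Fin N)} (hI : ∀ i ∈ I, d i < 0) {u : GL (Fin N) ℝ} (hu : u ∈ UU b e I) :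
    Tendsto (fun t : ℝ => ex (t • TT_to b H) * u * (ex (t • TT_to b H))⁻¹) atTop (𝓝 1) := by
  unfold UU at hu
  induction hu using Subgroup.closure_induction with
  | mem g hg =>
    obtain ⟨i, hi, s, rfl⟩ := hg
    exact lim_conj (b := b) hE (Submodule.smul_mem _ s (hE.mem i (hI i hi))) tendsto_id
  | one =>
    simp only [mul_one, mul_inv_cancel]
    exact tendsto_const_nhds
  | mul x y _ _ hx hy =>
    have h1 := hx.mul hy
    rw [one_mul] at h1
    refine h1.congr fun t => ?_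
    group
  | inv x _ hx =>
    have h1 := hx.inv
    rw [inv_one] at h1
    refine h1.congr fun t => ?_
    group

/-- The elements of `U₊` are contracted by the inverses. -/
theorem uu_tend' (hE : EB H e d) {I : Set (Fin N)} (hI : ∀ i ∈ I, 0 < d i) {u : GL (Fin N) ℝ} (hu : u ∈ UU b e I) :
    Tendsto (fun t : ℝ => (ex (t • TT_to b H))⁻¹ * u * ex (t • TT_to b H)) atTop (𝓝 1) := by
  have h1 := uu_tend (H := -H) hE.neg (I := I) (fun i hi => by have := hI i hi; linarith) hu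
  refine h1.congr fun t => ?_
  rw [map_neg, smul_neg, ex_neg, inv_inv]

/-- The big cell, pointwise. -/
theorem cell_pt (h : CartanBasis θ b) (hH : θ H = -H) (H0 : H ≠ 0)
    (hc : ∀ Z : L, θ Z = -Z → (∀ y : L, ⁅H, y⁆ = 0 → ⁅Z, y⁆ = 0) → ∃ c : ℝ, Z = c • H) {g : GL (Fin N) ℝ} (hg : g ∈ autC b)
    (hT : Tv b H g⁻¹) : ∃ x z y : GL (Fin N) ℝ, x ∈ autC b ∧ z ∈ autC b ∧ y ∈ autC b ∧ ac b z H = H ∧ g = x * z * y ∧
      Tendsto (fun t : ℝ => ex (t • TT_to b H) * x * (ex (t • TT_to b H))⁻¹) atTop (𝓝 1) ∧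
      Tendsto (fun t : ℝ => (ex (t • TT_to b H))⁻¹ * y * ex (t • TT_to b H)) atTop (𝓝 1) := by
  obtain ⟨e, d, he, hE⟩ := exists_eb h hH
  obtain ⟨x, hx, hxn⟩ := trv_ex hE hT
  obtain ⟨u1, hu1, hu1e⟩ := rem_pos (b := b) hE hxn
  rw [add_sub_cancel, ← ac_mul] at hu1e
  have hu1c := UU_le b e _ hu1
  have hT' : Tv b H (u1 * g⁻¹) := by
    intro y hy hy'
    refine hT y hy ?_
    have h3 : ac b g⁻¹ y = ac b u1⁻¹ (ac b (u1 * g⁻¹) y) := by rw [ac_mul, ac_inv]
    rw [h3]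
    refine UU_es hE (T := Ioi 0) (fun i hi => hi) (fun t ht s hs => ?_) ((UU b e _).inv_mem hu1) hy'
    simp only [mem_Ioi] at ht hs ⊢
    linarith
  have hk1 : u1 * g⁻¹ ∈ autC b := (autC b).mul_mem hu1c ((autC b).inv_mem hg)
  have hq := trv_stab hE (autC_le b hk1) hT' hx hu1e
  have hs := stab h he hE hH H0 hc (autC_le b hk1) hq
  obtain ⟨u2, hu2, hu2e⟩ := rem_neg (b := b) hE hs
  rw [add_sub_cancel, ← ac_mul] at hu2e
  have hu2c := UU_le b e _ hu2
  obtain ⟨z, hz⟩ : ∃ z, z = (u2 * (u1 * g⁻¹))⁻¹ := ⟨_, rfl⟩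
  have hzc : z ∈ autC b := by
    rw [hz]
    exact (autC b).inv_mem ((autC b).mul_mem hu2c hk1)
  have hzH : ac b z H = H := by
    have h4 := ac_inv (b := b) (u2 * (u1 * g⁻¹)) H
    rw [hu2e] at h4
    rw [hz]
    exact h4
  refine ⟨z * u2 * z⁻¹, z, u1, (autC b).mul_mem ((autC b).mul_mem hzc hu2c) ((autC b).inv_mem hzc), hzc, hu1c, hzH, ?_, ?_, ?_⟩
  · rw [hz]
    group
  · have h1 := ((tendsto_const_nhds (x := z)).mul (uu_tend (b := b) hE (I := {i | d i < 0}) (fun i hi => hi) hu2)).mul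
      (tendsto_const_nhds (x := z⁻¹) (f := (atTop : Filter ℝ)))
    rw [mul_one, mul_inv_cancel] at h1
    refine h1.congr fun t => ?_
    have h2 : ex (t • TT_to b H) * z = z * ex (t • TT_to b H) := conj_fix (autC_le b hzc) hzH t
    have h3 : z⁻¹ * (ex (t • TT_to b H))⁻¹ = (ex (t • TT_to b H))⁻¹ * z⁻¹ := by
      rw [← _root_.mul_inv_rev, ← _root_.mul_inv_rev, h2]
    calc z * (ex (t • TT_to b H) * u2 * (ex (t • TT_to b H))⁻¹) * z⁻¹
        = (z * ex (t • TT_to b H)) * u2 * ((ex (t • TT_to b H))⁻¹ * z⁻¹) := by simp only [mul_assoc]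
      _ = ex (t • TT_to b H) * (z * u2 * z⁻¹) * (ex (t • TT_to b H))⁻¹ := by rw [← h2, ← h3]; simp only [mul_assoc]
  · exact uu_tend' (b := b) hE (I := {i | 0 < d i}) (fun i hi => hi) hu1

/-- The clause `cell` of the group data. -/
theorem cell_of (h : CartanBasis θ b) (hH : θ H = -H) (H0 : H ≠ 0)
    (hc : ∀ Z : L, θ Z = -Z → (∀ y : L, ⁅H, y⁆ = 0 → ⁅Z, y⁆ = 0) → ∃ c : ℝ, Z = c • H) {f : autC b → ℝ} (hf : Continuous f)
    (hT : ∀ g : autC b, f g ≠ 0 → Tv b H ((g : GL (Fin N) ℝ)⁻¹)) {a : ℝ → autC b} (ha : ∀ t, (a t : GL (Fin N) ℝ) = ex (t • TT_to b H))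
    {δ : ℝ} (hδ : 0 < δ) {B : Set (autC b)} (hB : IsCompact B) : ∃ B' : Set (autC b), IsCompact B' ∧ ∀ g ∈ B, δ ≤ |f g| →
      ∃ x ∈ B', ∃ l ∈ B', ∃ y ∈ B', g = x * l * y ∧ Tendsto (fun t : ℝ => a t * x * a (-t)) atTop (𝓝 1) ∧
        (∀ t : ℝ, l * a t = a t * l) ∧ Tendsto (fun t : ℝ => a (-t) * y * a t) atTop (𝓝 1) := by
  have hs : (TT_to b H)ᵀ = TT_to b H := (TT_symm_iff_to h H).2 hH
  obtain ⟨U, hh, hU1, hU2, hHU⟩ := exists_diag hs
  have hGc : IsClosed (autC b : Set (GL (Fin N) ℝ)) := (Pool.Agent.Helper66.BD.isAdj_component b).closed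
  have hHG : TT_to b H ∈ lie (autC b) := by
    rw [mem_lie]
    intro t
    rw [← map_smul]
    exact ex_mem_autC b _
  obtain ⟨S, hSd⟩ : ∃ S : Set (autC b), S = B ∩ {g | δ ≤ |f g|} := ⟨_, rfl⟩
  have hSc : IsCompact S := by
    rw [hSd]
    exact hB.inter_right (isClosed_le continuous_const hf.abs)
  have hSf : ∀ g : S, f g ≠ 0 := by
    rintro ⟨g, hg⟩ h0
    rw [hSd] at hg
    have h1 : δ ≤ |f g| := hg.2
    rw [h0, abs_zero] at h1
    linarith
  choose x z y hx hz hy hzH hg htx hty using fun g : S => cell_pt h hH H0 hc (g : autC b).2 (hT g (hSf g))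
  have hcm : ∀ (g : S) (t : ℝ), ex (t • TT_to b H) * z g = z g * ex (t • TT_to b H) := fun g t => conj_fix (autC_le b (hz g)) (hzH g) t
  -- the limit of `z y`
  have htq : ∀ g : S, Tendsto (fun t : ℝ => cj (TT_to b H) t (z g * y g)) atTop (𝓝 (z g)) := by
    intro g
    have h1 := (tendsto_const_nhds (x := z g) (f := (atTop : Filter ℝ))).mul (hty g)
    rw [mul_one] at h1
    refine h1.congr fun t => ?_
    unfold cj
    have h3 : (ex (t • TT_to b H))⁻¹ * z g = z g * (ex (t • TT_to b H))⁻¹ := by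
      rw [inv_mul_eq_iff_eq_mul, ← mul_assoc, hcm g t, mul_assoc, mul_inv_cancel, mul_one]
    calc z g * ((ex (t • TT_to b H))⁻¹ * y g * ex (t • TT_to b H)) = (z g * (ex (t • TT_to b H))⁻¹) * y g * ex (t • TT_to b H) := by
          simp only [mul_assoc]
      _ = (ex (t • TT_to b H))⁻¹ * (z g * y g) * ex (t • TT_to b H) := by
          rw [← h3]
          simp only [mul_assoc]
  have hqP : ∀ g : S, z g * y g ∈ Pg (TT_to b H) := fun g => ⟨_, htq g⟩
  -- coordinates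
  have hform : ∀ (g : S) (j : Fin N), (Cm (Pj hh (hh j)) (Uᵀ * (((g : autC b) : GL (Fin N) ℝ) : Mat N) * U)).det ≠ 0 ∧
      ∀ i, (Uᵀ * (((g : autC b) : GL (Fin N) ℝ) : Mat N) * U * Pj hh (hh j) *
        (Cm (Pj hh (hh j)) (Uᵀ * (((g : autC b) : GL (Fin N) ℝ) : Mat N) * U))⁻¹) i j = (Uᵀ * (x g : Mat N) * U) i j := by
    intro g j
    have hti : Tendsto (fun t : ℝ => ex (t • TT_to b H) * (x g)⁻¹ * (ex (t • TT_to b H))⁻¹) atTop (𝓝 1) := by
      have h1 := (htx g).inv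
      rw [inv_one] at h1
      refine h1.congr fun t => ?_
      group
    have hm : ∀ A B : Mat N, Uᵀ * (A * B) * U = (Uᵀ * A * U) * (Uᵀ * B * U) := by
      intro A B
      calc Uᵀ * (A * B) * U = Uᵀ * A * 1 * B * U := by simp only [mul_one, mul_assoc]
        _ = _ := by rw [← hU2]; simp only [mul_assoc]
    have e1 : Uᵀ * (((g : autC b) : GL (Fin N) ℝ) : Mat N) * U = (Uᵀ * (x g : Mat N) * U) * (Uᵀ * ((z g * y g : GL (Fin N) ℝ) : Mat N) * U) := by
      rw [← hm]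
      have h1 : (((g : autC b) : GL (Fin N) ℝ) : Mat N) = (x g : Mat N) * ((z g * y g : GL (Fin N) ℝ) : Mat N) := by
        rw [← Units.val_mul, ← mul_assoc, ← hg g]
      rw [h1]
    have hone : Uᵀ * (1 : Mat N) * U = 1 := by rw [mul_one, hU1]
    have e2 : (Uᵀ * (((x g)⁻¹ : GL (Fin N) ℝ) : Mat N) * U) * (Uᵀ * (x g : Mat N) * U) = 1 := by
      rw [← hm, Units.inv_mul, hone]
    have e3 : (Uᵀ * ((z g * y g : GL (Fin N) ℝ) : Mat N) * U) * (Uᵀ * (((z g * y g)⁻¹ : GL (Fin N) ℝ) : Mat N) * U) = 1 := by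
      rw [← hm, Units.mul_inv, hone]
    rw [e1]
    exact form e2 e3 (fun i j hij => shape_x hU1 hU2 hHU (htx g) i j hij) (fun i j hij => shape_x hU1 hU2 hHU hti i j hij)
      ((mem_Pg_iff hU1 hU2 hHU).1 (hqP g)) ((mem_Pg_iff hU1 hU2 hHU).1 ((Pg (TT_to b H)).inv_mem (hqP g))) j
  -- continuity of `x`
  have hXc : Continuous fun g : S => (⟨x g, hx g⟩ : autC b) := by
    refine (isEmbedding_val.comp Topology.IsEmbedding.subtypeVal).continuous_iff.2 ?_
    have e1 : (((fun g : GL (Fin N) ℝ => (g : Mat N)) ∘ Subtype.val) ∘ fun g : S => (⟨x g, hx g⟩ : autC b)) =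
        fun g : S => U * Fx hh (Uᵀ * (((g : autC b) : GL (Fin N) ℝ) : Mat N) * U) * Uᵀ := by
      funext g
      have e2 : Fx hh (Uᵀ * (((g : autC b) : GL (Fin N) ℝ) : Mat N) * U) = Uᵀ * (x g : Mat N) * U := by
        ext i j
        exact (hform g j).2 i
      rw [e2]
      exact (back hU2 _).symm
    rw [e1]
    have h1 : Continuous fun g : S => Uᵀ * (((g : autC b) : GL (Fin N) ℝ) : Mat N) * U := by
      have h2 : Continuous fun A : Mat N => Uᵀ * A * U := by fun_prop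
      exact h2.comp (Units.continuous_val.comp (continuous_subtype_val.comp continuous_subtype_val))
    have h2 : Continuous fun g : S => Fx hh (Uᵀ * (((g : autC b) : GL (Fin N) ℝ) : Mat N) * U) := by
      have h3 := continuousOn_Fx (h := hh) (S := Set.range fun g : S => Uᵀ * (((g : autC b) : GL (Fin N) ℝ) : Mat N) * U) (by
        rintro _ ⟨g, rfl⟩ j
        exact (hform g j).1)
      exact h3.comp_continuous h1 fun g => ⟨g, rfl⟩
    have h3 : Continuous fun A : Mat N => U * A * Uᵀ := by fun_prop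
    exact h3.comp h2
  -- continuity of `z y`, `z`, `y`
  have hQ : ∀ g : S, (⟨x g, hx g⟩ : autC b)⁻¹ * (g : autC b) = ⟨z g * y g, (autC b).mul_mem (hz g) (hy g)⟩ := by
    intro g
    rw [inv_mul_eq_iff_eq_mul]
    apply Subtype.ext
    change ((g : autC b) : GL (Fin N) ℝ) = x g * (z g * y g)
    rw [← mul_assoc]
    exact hg g
  have hQc : Continuous fun g : S => (⟨z g * y g, (autC b).mul_mem (hz g) (hy g)⟩ : autC b) := by
    refine (hXc.inv.mul continuous_subtype_val).congr fun g => ?_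
    exact hQ g
  have hZc : Continuous fun g : S => (⟨z g, hz g⟩ : autC b) := by
    have h1 : Continuous fun g : S => (⟨⟨z g * y g, (autC b).mul_mem (hz g) (hy g)⟩, Subgroup.mem_subgroupOf.2 (hqP g)⟩ : Qg (autC b) (TT_to b H)) :=
      hQc.subtype_mk _
    have h2 := (continuous_DG hGc hs hHG).comp h1
    refine h2.congr fun g => ?_
    apply Subtype.ext
    change ((DG hGc hHG _ : autC b) : GL (Fin N) ℝ) = z g
    rw [DG_coe]
    exact Dh_eq (htq g)
  have hYc : Continuous fun g : S => (⟨y g, hy g⟩ : autC b) := by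
    refine (hZc.inv.mul hQc).congr fun g => ?_
    change (⟨z g, hz g⟩ : autC b)⁻¹ * (⟨z g * y g, (autC b).mul_mem (hz g) (hy g)⟩ : autC b) = ⟨y g, hy g⟩
    rw [inv_mul_eq_iff_eq_mul]
    rfl
  have hSS : CompactSpace S := isCompact_iff_compactSpace.1 hSc
  refine ⟨(Set.range fun g : S => (⟨x g, hx g⟩ : autC b)) ∪ ((Set.range fun g : S => (⟨z g, hz g⟩ : autC b)) ∪
    Set.range fun g : S => (⟨y g, hy g⟩ : autC b)), (isCompact_range hXc).union ((isCompact_range hZc).union (isCompact_range hYc)), ?_⟩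
  intro g hgB hgd
  have hgS : g ∈ S := by
    rw [hSd]
    exact ⟨hgB, hgd⟩
  have han : ∀ t, a (-t) = (a t)⁻¹ := by
    intro t
    apply Subtype.ext
    rw [ha, Subgroup.coe_inv, ha, neg_smul, ex_neg]
  refine ⟨⟨x ⟨g, hgS⟩, hx _⟩, Or.inl ⟨_, rfl⟩, ⟨z ⟨g, hgS⟩, hz _⟩, Or.inr (Or.inl ⟨_, rfl⟩), ⟨y ⟨g, hgS⟩, hy _⟩, Or.inr (Or.inr ⟨_, rfl⟩),
    Subtype.ext (hg ⟨g, hgS⟩), ?_, ?_, ?_⟩
  · rw [nhds_subtype_eq_comap, tendsto_comap_iff]
    refine (htx ⟨g, hgS⟩).congr fun t => ?_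
    simp only [Function.comp_apply, Subgroup.coe_mul, han, Subgroup.coe_inv, ha]
  · intro t
    apply Subtype.ext
    rw [Subgroup.coe_mul, Subgroup.coe_mul, ha]
    exact (hcm ⟨g, hgS⟩ t).symm
  · rw [nhds_subtype_eq_comap, tendsto_comap_iff]
    refine (hty ⟨g, hgS⟩).congr fun t => ?_
    simp only [Function.comp_apply, Subgroup.coe_mul, han, Subgroup.coe_inv, ha]

end Pool.Agent.Helper50.FQ
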