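import Pool.Agent.Helper50.FQ.CelR
import Pool.Agent.Helper90.FQ.Nr3
import Pool.Agent.Helper77.FQ.Pl

/-!
# Project FQ (MP_0f6f3f_an): the clause `cell` of the group data for the node representations
-/

set_option autoImplicit false
set_option linter.unusedSectionVars false

open Matrix Set Filter Topology

namespace Pool.Agent.Helper50.FQ

open Pool.Agent.Helper96.SA Pool.Agent.Helper96.TO Pool.Agent.Helper35.TZ Pool.Agent.Helper46.FQ Pool.Agent.Helper2.BC Pool.Agent.Helper72.FQ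
open Pool.Agent.Helper90.FQ (Fl E0 v0 NB RM)
open Pool.Agent.Helper77.FQ
open Pool.Agent.Helper77.AE (Smp)

variable {L : Type} [LieRing L] [LieAlgebra ℝ L] {N : ℕ} {θ : L ≃ₗ⁅ℝ⁆ L} {b : Module.Basis (Fin N) ℝ L}
  {A : Submodule ℝ L} {ι : Type} [Fintype ι] [DecidableEq ι] {al : ι → Module.Dual ℝ A}

theorem rho_zero {W : Wb b A al} {l : ι} (B : NB W l) (h : CartanBasis θ b) (hl : LinearIndependent ℝ al) (g : autC b) :
    B.rho h hl g 0 0 = ∑ I, B.Q I 0 * RT (hat W.O ((g : GL (Fin N) ℝ) : Mat N)) (fun J => B.Q J 0) I := by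
  rw [B.rho_apply, NB.rr, Matrix.mul_apply]
  rfl

/-- **The clause `cell` of the group data.** -/
theorem cell_rho (h : CartanBasis θ b) (hA : MaxFlat θ A) (hS : Smp A al) (hl : LinearIndependent ℝ al) (hG : IsAdj b (autC b)) {w : ι → A}
    (hw : ∀ i j, al i (w j) = if i = j then 1 else 0) {W : Wb b A al} {l : ι} (B : NB W l) {δ : ℝ} (hδ : 0 < δ) {S : Set (autC b)}
    (hSc : IsCompact S) : ∃ B' : Set (autC b), IsCompact B' ∧ ∀ g ∈ S, δ ≤ |B.rho h hl g 0 0| → ∃ x ∈ B', ∃ z ∈ B', ∃ y ∈ B', g = x * z * y ∧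
      Tendsto (fun t : ℝ => eaG hG w (Pi.single l t) * x * eaG hG w (Pi.single l (-t))) atTop (𝓝 1) ∧
      (∀ t : ℝ, z * eaG hG w (Pi.single l t) = eaG hG w (Pi.single l t) * z) ∧
      Tendsto (fun t : ℝ => eaG hG w (Pi.single l (-t)) * y * eaG hG w (Pi.single l t)) atTop (𝓝 1) := by
  have hH : θ ((w l : A) : L) = -((w l : A) : L) := hA.neg _ (w l).2
  have hf : Continuous fun g : autC b => B.rho h hl g 0 0 := (B.rho_cont h hl).matrix_elem 0 0
  refine cell_of h hH (cow_ne hw l) (cow_line h hA hS hw l) hf (fun g hg => ?_) (a := fun t => eaG hG w (Pi.single l t)) (fun t => ?_) hδ hSc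
  · refine tv_of_NB W l B (fun i => hw i l) ?_
    rw [rho_zero] at hg
    exact hg
  · change ex (TT_to b (eaA w (Pi.single l t) : L)) = _
    rw [eaA_single, Submodule.coe_smul, map_smul]

end Pool.Agent.Helper50.FQ
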