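import Pool.Agent.Helper46.FQ.Par

/-!
# Project FQ (MP_0f6f3f_an): the big cell, matrix part

`H = U diag(h) Uᵀ`. `shape_x`: an element `x` of `GL` with `a_t x a_t⁻¹ → 1` (`a_t = exp(t H)`) has, in the basis of eigenvectors, the entries `(i, j)`, `h j ≤ h i`, of the unit matrix. `form`: if `g = x q` with `x` of this shape
and `q ∈ Pg H`, then the entries of `x` are explicit continuous functions of `g`: `x i j = (g P_j (P_j g P_j + (1 - P_j))⁻¹) i j` with `P_j` the projection on the coordinates `k` with `h j ≤ h k`.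
-/

set_option autoImplicit false

open Matrix Filter Topology

namespace Pool.Agent.Helper50.FQ

open Pool.Agent.Helper96.SA Pool.Agent.Helper46.FQ

variable {N : ℕ}

section Shape

variable {H U : Mat N} {h : Fin N → ℝ}

theorem cj_neg (H : Mat N) (t : ℝ) (x : GL (Fin N) ℝ) : cj H (-t) x = ex (t • H) * x * (ex (t • H))⁻¹ := by
  unfold cj
  rw [neg_smul, ex_neg, inv_inv]

theorem shape_x (hU1 : Uᵀ * U = 1) (hU2 : U * Uᵀ = 1) (hH : H = U * diagonal h * Uᵀ) {x : GL (Fin N) ℝ}
    (hx : Tendsto (fun t : ℝ => ex (t • H) * x * (ex (t • H))⁻¹) atTop (𝓝 1)) (i j : Fin N) (hij : h j ≤ h i) :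
    (Uᵀ * (x : Mat N) * U) i j = (1 : Mat N) i j := by
  have h1 : Continuous fun x : GL (Fin N) ℝ => (Uᵀ * (x : Mat N) * U) i j := by
    have h2 : Continuous fun A : Mat N => Uᵀ * A * U := by fun_prop
    exact (h2.comp Units.continuous_val).matrix_elem i j
  have h2 := (h1.tendsto 1).comp hx
  have h3 : Tendsto (fun t : ℝ => Real.exp (-t * (h j - h i)) * (Uᵀ * (x : Mat N) * U) i j) atTop (𝓝 ((1 : Mat N) i j)) := by
    rw [Units.val_one, mul_one, hU1] at h2
    refine h2.congr fun t => ?_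
    rw [← cj_coe hU1 hU2 hH, cj_neg]
    rfl
  rcases hij.eq_or_lt with h4 | h4
  · rw [h4] at h3
    simp only [sub_self, mul_zero, Real.exp_zero, one_mul] at h3
    exact tendsto_nhds_unique tendsto_const_nhds h3
  · have h5 : Tendsto (fun t : ℝ => Real.exp (t * (h j - h i))) atTop (𝓝 0) := by
      refine Real.tendsto_exp_atBot.comp ?_
      exact tendsto_id.atTop_mul_const_of_neg (by linarith)
    have h6 := h5.mul h3
    rw [zero_mul] at h6
    have h7 : (fun t : ℝ => Real.exp (t * (h j - h i)) * (Real.exp (-t * (h j - h i)) * (Uᵀ * (x : Mat N) * U) i j)) =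
        fun _ => (Uᵀ * (x : Mat N) * U) i j := by
      funext t
      rw [← mul_assoc, ← Real.exp_add]
      have e : t * (h j - h i) + -t * (h j - h i) = 0 := by ring
      rw [e, Real.exp_zero, one_mul]
    rw [h7] at h6
    have h8 := tendsto_nhds_unique tendsto_const_nhds h6
    rw [h8, Matrix.one_apply_ne]
    rintro rfl
    exact lt_irrefl _ h4

end Shape

section Form

variable {h : Fin N → ℝ}

/-- The projection on the coordinates with `c ≤ h i`. -/
noncomputable def Pj (h : Fin N → ℝ) (c : ℝ) : Mat N := diagonal fun i => if c ≤ h i then 1 else 0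

theorem Pj_sq (c : ℝ) : Pj h c * Pj h c = Pj h c := by
  unfold Pj
  rw [diagonal_mul_diagonal]
  congr 1
  funext i
  split_ifs <;> simp

theorem Pj_X {X : Mat N} (hX : ∀ i j, h j ≤ h i → X i j = (1 : Mat N) i j) (c : ℝ) : Pj h c * X * Pj h c = Pj h c * X := by
  ext i j
  unfold Pj
  rw [mul_diagonal, diagonal_mul]
  by_cases hi : c ≤ h i
  · by_cases hj : c ≤ h j
    · rw [if_pos hj, mul_one]
    · have h1 : h j ≤ h i := (not_le.1 hj).le.trans hi
      have h2 : i ≠ j := by
        rintro rfl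
        exact hj hi
      rw [hX i j h1, Matrix.one_apply_ne h2, mul_zero, zero_mul]
  · rw [if_neg hi, zero_mul, zero_mul]

theorem Pj_Y {Y : Mat N} (hY : ∀ i j, h i < h j → Y i j = 0) (c : ℝ) : Pj h c * Y * Pj h c = Y * Pj h c := by
  ext i j
  unfold Pj
  rw [mul_diagonal, diagonal_mul, mul_diagonal]
  by_cases hj : c ≤ h j
  · by_cases hi : c ≤ h i
    · rw [if_pos hi, one_mul]
    · have h1 : h i < h j := (not_le.1 hi).trans_le hj
      rw [hY i j h1, mul_zero]
  · rw [if_neg hj, mul_zero, mul_zero]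

/-- The compression, extended by the identity. -/
noncomputable def Cm (P X : Mat N) : Mat N := P * X * P + (1 - P)

theorem Cm_mul {P X Y : Mat N} (hP : P * P = P) (h1 : P * X * P * Y * P = P * (X * Y) * P) : Cm P X * Cm P Y = Cm P (X * Y) := by
  unfold Cm
  have e : (P * X * P + (1 - P)) * (P * Y * P + (1 - P)) =
      P * X * (P * P) * Y * P + P * X * (P - P * P) + (P - P * P) * Y * P + (1 - P - P + P * P) := by noncomm_ring
  rw [e, hP, sub_self, mul_zero, zero_mul, zero_mul, add_zero, add_zero, sub_add_cancel, h1]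

theorem Cm_one {P : Mat N} (hP : P * P = P) : Cm P 1 = 1 := by
  unfold Cm
  rw [mul_one, hP, add_sub_cancel]

theorem form {X X' Y Y' : Mat N} (hXX : X' * X = 1) (hYY : Y * Y' = 1)
    (hX : ∀ i j, h j ≤ h i → X i j = (1 : Mat N) i j) (hX' : ∀ i j, h j ≤ h i → X' i j = (1 : Mat N) i j)
    (hY : ∀ i j, h i < h j → Y i j = 0) (hY' : ∀ i j, h i < h j → Y' i j = 0) (j : Fin N) :
    (Cm (Pj h (h j)) (X * Y)).det ≠ 0 ∧ ∀ i, (X * Y * Pj h (h j) * (Cm (Pj h (h j)) (X * Y))⁻¹) i j = X i j := by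
  obtain ⟨P, hPd⟩ : ∃ P, P = Pj h (h j) := ⟨_, rfl⟩
  have hP : P * P = P := by rw [hPd, Pj_sq]
  have pX : P * X * P = P * X := by rw [hPd, Pj_X hX]
  have pX' : P * X' * P = P * X' := by rw [hPd, Pj_X hX']
  have pY : P * Y * P = Y * P := by rw [hPd, Pj_Y hY]
  have pY' : P * Y' * P = Y' * P := by rw [hPd, Pj_Y hY']
  rw [← hPd]
  have e1 : Cm P X * Cm P Y = Cm P (X * Y) := Cm_mul hP (by rw [pX]; simp only [mul_assoc])
  have e2 : Cm P Y * Cm P Y' = 1 := by
    rw [Cm_mul hP, hYY, Cm_one hP]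
    calc P * Y * P * Y' * P = P * Y * (P * Y' * P) := by simp only [mul_assoc]
      _ = P * (Y * Y') * P := by rw [pY']; simp only [mul_assoc]
  have e3 : Cm P X' * Cm P X = 1 := by
    rw [Cm_mul hP, hXX, Cm_one hP]
    rw [pX']
    simp only [mul_assoc]
  have e4 : Cm P (X * Y) * (Cm P Y' * Cm P X') = 1 := by
    rw [← e1]
    calc Cm P X * Cm P Y * (Cm P Y' * Cm P X') = Cm P X * (Cm P Y * Cm P Y') * Cm P X' := by simp only [mul_assoc]
      _ = 1 := by rw [e2, mul_one, mul_eq_one_comm.1 e3]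
  have hdet : (Cm P (X * Y)).det ≠ 0 := by
    intro h0
    have h1 := congrArg Matrix.det e4
    rw [det_mul, h0, zero_mul, det_one] at h1
    exact zero_ne_one h1
  refine ⟨hdet, fun i => ?_⟩
  have hinv : (Cm P (X * Y))⁻¹ = Cm P Y' * Cm P X' := Matrix.inv_eq_right_inv e4
  have e5 : X * Y * P * (Cm P Y' * Cm P X') = X * P * X' * P := by
    have f1 : P * Cm P Y' = Y' * P := by
      unfold Cm
      have : P * (P * Y' * P + (1 - P)) = (P * P) * Y' * P + (P - P * P) := by noncomm_ring
      rw [this, hP, sub_self, add_zero, pY']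
    have f2 : P * Cm P X' = P * X' * P := by
      unfold Cm
      have : P * (P * X' * P + (1 - P)) = (P * P) * X' * P + (P - P * P) := by noncomm_ring
      rw [this, hP, sub_self, add_zero]
    calc X * Y * P * (Cm P Y' * Cm P X') = X * Y * (P * Cm P Y') * Cm P X' := by simp only [mul_assoc]
      _ = X * (Y * Y') * (P * Cm P X') := by rw [f1]; simp only [mul_assoc]
      _ = X * P * X' * P := by rw [hYY, f2, mul_one]; simp only [mul_assoc]
  rw [hinv, e5]
  have e6 : (X * P * X' * P) i j = ∑ k, (X i k * if h j ≤ h k then 1 else 0) * X' k j := by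
    rw [hPd]
    unfold Pj
    rw [mul_diagonal, if_pos (le_refl _), mul_one, mul_apply]
    refine Finset.sum_congr rfl fun k _ => ?_
    rw [mul_diagonal]
  rw [e6, Finset.sum_eq_single j]
  · rw [if_pos (le_refl _), hX' j j (le_refl _), Matrix.one_apply_eq, mul_one, mul_one]
  · intro k _ hk
    split_ifs with h1
    · rw [hX' k j h1, Matrix.one_apply_ne hk, mul_zero]
    · rw [mul_zero, zero_mul]
  · intro h1
    exact absurd (Finset.mem_univ _) h1

/-- The explicit `x`. -/
noncomputable def Fx (h : Fin N → ℝ) (A : Mat N) : Mat N := of fun i j => (A * Pj h (h j) * (Cm (Pj h (h j)) A)⁻¹) i j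

theorem continuousOn_Fx {S : Set (Mat N)} (hS : ∀ A ∈ S, ∀ j, (Cm (Pj h (h j)) A).det ≠ 0) : ContinuousOn (Fx h) S := by
  refine continuousOn_pi.2 fun i => continuousOn_pi.2 fun j => ?_
  have h1 : Continuous fun A : Mat N => Cm (Pj h (h j)) A := by
    unfold Cm
    fun_prop
  have h2 : ContinuousOn (fun A : Mat N => (Cm (Pj h (h j)) A)⁻¹) S := by
    have e : (fun A : Mat N => (Cm (Pj h (h j)) A)⁻¹) = fun A : Mat N => ((Cm (Pj h (h j)) A).det)⁻¹ • (Cm (Pj h (h j)) A).adjugate := by
      funext A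
      rw [Matrix.inv_def, Ring.inverse_eq_inv']
    rw [e]
    exact (ContinuousOn.inv₀ h1.matrix_det.continuousOn fun A hA => hS A hA j).smul h1.matrix_adjugate.continuousOn
  have h3 : ContinuousOn (fun A : Mat N => A * Pj h (h j) * (Cm (Pj h (h j)) A)⁻¹) S := by
    have h4 : Continuous fun A : Mat N => A * Pj h (h j) := by fun_prop
    exact h4.continuousOn.mul h2
  have h5 : Continuous fun A : Mat N => A i j := continuous_id.matrix_elem i j
  have h6 : ContinuousOn ((fun A : Mat N => A i j) ∘ fun A : Mat N => A * Pj h (h j) * (Cm (Pj h (h j)) A)⁻¹) S :=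
    Continuous.comp_continuousOn (g := fun A : Mat N => A i j) h5 h3
  exact h6

end Form

end Pool.Agent.Helper50.FQ
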