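import Pool.Agent.Helper50.FQ.Cel
import Pool.Agent.Helper90.FQ.Nr2

/-!
# Project FQ (MP_0f6f3f_an): the big cell and the matrix coefficients of the node representations

`tv_of_det`: if the block of `g` on the sum of the eigenspaces of `ad H` with positive eigenvalues is invertible then `g⁻¹` is transversal to `H`. `tv_of_pair`: the same if the coefficient of `g` at the highest weight vector of the node is not zero.
`cell_node`: the clause `cell` for a node `l` and a function `f` which is such a coefficient.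
-/

set_option autoImplicit false
set_option linter.unusedSectionVars false

open Matrix Set Filter Topology

namespace Pool.Agent.Helper50.FQ

open Pool.Agent.Helper96.SA Pool.Agent.Helper96.TO Pool.Agent.Helper35.TZ Pool.Agent.Helper46.FQ Pool.Agent.Helper2.BC Pool.Agent.Helper72.FQ
open Pool.Agent.Helper90.FQ (Fl E0 v0 NB)

variable {L : Type} [LieRing L] [LieAlgebra ℝ L] {N : ℕ} {θ : L ≃ₗ⁅ℝ⁆ L} {b : Module.Basis (Fin N) ℝ L} {H : L}

theorem es_coord {O : Mat N} {hh : Fin N → ℝ} (h1 : Oᵀ * O = 1) (hO : TT_to b H = O * diagonal hh * Oᵀ) {S : Set ℝ} {x : L}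
    (hx : x ∈ es H S) {k : Fin N} (hk : hh k ∉ S) : (Oᵀ *ᵥ b.equivFun x) k = 0 := by
  let K : Submodule ℝ L :=
    { carrier := {x | (Oᵀ *ᵥ b.equivFun x) k = 0}
      add_mem' := by
        intro x y hx hy
        have hx' : (Oᵀ *ᵥ b.equivFun x) k = 0 := hx
        have hy' : (Oᵀ *ᵥ b.equivFun y) k = 0 := hy
        change (Oᵀ *ᵥ b.equivFun (x + y)) k = 0
        rw [map_add, Matrix.mulVec_add, Pi.add_apply, hx', hy', add_zero]
      zero_mem' := by
        change (Oᵀ *ᵥ b.equivFun 0) k = 0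
        rw [map_zero, Matrix.mulVec_zero]
        rfl
      smul_mem' := by
        intro c x hx
        have hx' : (Oᵀ *ᵥ b.equivFun x) k = 0 := hx
        change (Oᵀ *ᵥ b.equivFun (c • x)) k = 0
        rw [map_smul, Matrix.mulVec_smul, Pi.smul_apply, hx', smul_zero] }
  have hle : es H S ≤ K := by
    unfold es
    refine iSup_le fun l => iSup_le fun hl => ?_
    intro y hy
    rw [Module.End.mem_eigenspace_iff] at hy
    have hy' : ⁅H, y⁆ = l • y := hy
    have h3 : TT_to b H *ᵥ b.equivFun y = l • b.equivFun y := by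
      rw [← toLin_coord, toLin_TT_to, hy', map_smul]
    have h4 : Oᵀ *ᵥ (TT_to b H *ᵥ b.equivFun y) = diagonal hh *ᵥ (Oᵀ *ᵥ b.equivFun y) := by
      rw [hO, Matrix.mulVec_mulVec, Matrix.mulVec_mulVec]
      congr 1
      rw [← mul_assoc, ← mul_assoc, h1, one_mul]
    rw [h3, Matrix.mulVec_smul] at h4
    have h5 := congrFun h4 k
    rw [Matrix.mulVec_diagonal, Pi.smul_apply, smul_eq_mul] at h5
    change (Oᵀ *ᵥ b.equivFun y) k = 0
    have h6 : (l - hh k) * (Oᵀ *ᵥ b.equivFun y) k = 0 := by linarith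
    rcases mul_eq_zero.1 h6 with h7 | h7
    · exact absurd (by rwa [← sub_eq_zero.1 h7]) hk
    · exact h7
  exact hle hx

theorem tv_of_det {O : Mat N} {hh : Fin N → ℝ} (h1 : Oᵀ * O = 1) (h2 : O * Oᵀ = 1) (hO : TT_to b H = O * diagonal hh * Oᵀ)
    {D : Type} [Fintype D] [DecidableEq D] {f : D → Fin N} (hf : Function.Injective f) (hf1 : ∀ i, 0 < hh (f i))
    (hf2 : ∀ k, 0 < hh k → ∃ i, f i = k) {g : GL (Fin N) ℝ} (hd : ((hat O (g : Mat N)).submatrix f f).det ≠ 0) : Tv b H g⁻¹ := by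
  intro x hx hy
  obtain ⟨y, hyd⟩ : ∃ y, y = ac b g⁻¹ x := ⟨_, rfl⟩
  have hxy : x = ac b g y := by rw [hyd, ac_inv']
  rw [← hyd] at hy
  obtain ⟨v, hv⟩ : ∃ v, v = Oᵀ *ᵥ b.equivFun y := ⟨_, rfl⟩
  have hOv : b.equivFun y = O *ᵥ v := by rw [hv, Matrix.mulVec_mulVec, h2, Matrix.one_mulVec]
  have h3 : Oᵀ *ᵥ b.equivFun x = hat O (g : Mat N) *ᵥ v := by
    have e1 : b.equivFun x = (g : Mat N) *ᵥ b.equivFun y := by
      rw [hxy]
      exact toLin_coord b (g : Mat N) y
    rw [e1, hOv, Matrix.mulVec_mulVec, Matrix.mulVec_mulVec]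
    unfold hat
    rw [mul_assoc]
  have hv0 : ∀ k, ¬ 0 < hh k → v k = 0 := by
    intro k hk
    rw [hv]
    exact es_coord h1 hO hy hk
  have h4 : ((hat O (g : Mat N)).submatrix f f) *ᵥ (v ∘ f) = 0 := by
    funext i
    have e1 : (hat O (g : Mat N) *ᵥ v) (f i) = 0 := by
      rw [← h3]
      exact es_coord h1 hO hx (by
        intro h5
        exact absurd (h5 : hh (f i) ≤ 0) (not_le.2 (hf1 i)))
    rw [Pi.zero_apply, ← e1, Matrix.mulVec, Matrix.mulVec, dotProduct, dotProduct]
    have e2 : ∑ j : D, (hat O (g : Mat N)).submatrix f f i j * (v ∘ f) j = ∑ k ∈ Finset.univ.image f, hat O (g : Mat N) (f i) k * v k := by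
      rw [Finset.sum_image fun a _ c _ hac => hf hac]
      rfl
    rw [e2]
    refine Finset.sum_subset (Finset.subset_univ _) fun k _ hk => ?_
    rw [hv0 k, mul_zero]
    intro h5
    obtain ⟨i', rfl⟩ := hf2 k h5
    exact hk (Finset.mem_image_of_mem _ (Finset.mem_univ _))
  have h5 : v ∘ f = 0 := Matrix.eq_zero_of_mulVec_eq_zero hd h4
  have h6 : v = 0 := by
    funext k
    by_cases hk : 0 < hh k
    · obtain ⟨i, rfl⟩ := hf2 k hk
      exact congrFun h5 i
    · exact hv0 k hk
  have h7 : y = 0 := by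
    apply b.equivFun.injective
    rw [hOv, h6, Matrix.mulVec_zero, map_zero]
  rw [hxy, h7, map_zero]

section Node

variable {A : Submodule ℝ L} {ι : Type} [Fintype ι] [DecidableEq ι] {al : ι → Module.Dual ℝ A} (W : Wb b A al) (l : ι)

/-- The coefficient at the highest weight vector. -/
theorem det_of_pair {X : Mat N} (h : ∑ I, v0 W l I * RT (hat W.O X) (v0 W l) I ≠ 0) :
    ((hat W.O X).submatrix (Subtype.val : Fl W l → Fin N) Subtype.val).det ≠ 0 := by
  intro h0
  refine h (Finset.sum_eq_zero fun I _ => ?_)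
  by_cases h1 : v0 W l I = 0
  · rw [h1, zero_mul]
  · rw [v0, PL_apply, Matrix.det_apply] at h1
    obtain ⟨σ, _, hσ⟩ := Finset.exists_ne_zero_of_sum_ne_zero h1
    have h2 : ∏ i, ((E0 W l).submatrix I id) (σ i) i ≠ 0 := fun h3 => hσ (by rw [h3, smul_zero])
    have h3 : ∀ k : Fl W l, I (σ k) = k.1 := by
      intro k
      have h4 := (Finset.prod_ne_zero_iff.1 h2) k (Finset.mem_univ _)
      by_contra h5
      exact h4 (Matrix.one_apply_ne h5)
    have h4 : RT (hat W.O X) (v0 W l) I = 0 := by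
      have e1 : hat W.O X * E0 W l = (hat W.O X).submatrix id Subtype.val := by
        ext i q
        rw [Matrix.mul_apply, Finset.sum_eq_single q.1]
        · change _ * (1 : Mat N) q.1 q.1 = _
          rw [Matrix.one_apply_eq, mul_one]
          rfl
        · intro j _ hj
          change _ * (1 : Mat N) j q.1 = _
          rw [Matrix.one_apply_ne hj, mul_zero]
        · intro h
          exact absurd (Finset.mem_univ _) h
      rw [v0, ← PL_mul, e1, PL_apply]
      have e2 : (((hat W.O X).submatrix id (Subtype.val : Fl W l → Fin N)).submatrix I id) =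
          ((hat W.O X).submatrix (Subtype.val : Fl W l → Fin N) Subtype.val).submatrix (σ⁻¹ : Equiv.Perm (Fl W l)) id := by
        ext i j
        change hat W.O X (I i) j.1 = hat W.O X (σ⁻¹ i).1 j.1
        have h5 := h3 (σ⁻¹ i)
        rw [Equiv.Perm.coe_inv, Equiv.apply_symm_apply] at h5
        rw [h5, Equiv.Perm.coe_inv]
      rw [e2, Matrix.det_permute, h0, mul_zero]
    rw [h4, mul_zero]

theorem hh_node {Hl : A} (hl : ∀ i, al i Hl = if i = l then 1 else 0) (k : Fin N) : W.wt k Hl = W.cls k l := by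
  rw [W.eq, LinearMap.sum_apply, Finset.sum_eq_single l]
  · rw [LinearMap.smul_apply, hl, if_pos rfl, smul_eq_mul, mul_one]
  · intro i _ hi
    rw [LinearMap.smul_apply, hl, if_neg hi, smul_zero]
  · intro h
    exact absurd (Finset.mem_univ _) h

theorem tv_of_det_node {Hl : A} (hl : ∀ i, al i Hl = if i = l then 1 else 0) {g : GL (Fin N) ℝ}
    (hd : ((hat W.O (g : Mat N)).submatrix (Subtype.val : Fl W l → Fin N) Subtype.val).det ≠ 0) : Tv b (Hl : L) g⁻¹ := by
  refine tv_of_det W.h1 W.h2 (W.dg Hl) (f := (Subtype.val : Fl W l → Fin N)) Subtype.val_injective ?_ ?_ hd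
  · intro i
    rw [hh_node W l hl]
    exact_mod_cast i.2
  · intro k hk
    rw [hh_node W l hl] at hk
    exact ⟨⟨k, by exact_mod_cast hk⟩, rfl⟩

theorem tv_of_pair {Hl : A} (hl : ∀ i, al i Hl = if i = l then 1 else 0) {g : GL (Fin N) ℝ}
    (hd : ∑ I, v0 W l I * RT (hat W.O (g : Mat N)) (v0 W l) I ≠ 0) : Tv b (Hl : L) g⁻¹ :=
  tv_of_det_node W l hl (det_of_pair W l hd)

/-- The coefficient `(0, 0)` of the node representation in the basis `B`. -/
theorem tv_of_NB (B : NB W l) {Hl : A} (hl : ∀ i, al i Hl = if i = l then 1 else 0) {g : GL (Fin N) ℝ}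
    (hd : ∑ I, B.Q I 0 * RT (hat W.O (g : Mat N)) (fun J => B.Q J 0) I ≠ 0) : Tv b (Hl : L) g⁻¹ := by
  refine tv_of_pair W l hl ?_
  have e : ∑ I, v0 W l I * RT (hat W.O (g : Mat N)) (v0 W l) I =
      (B.c0 * B.c0) * ∑ I, B.Q I 0 * RT (hat W.O (g : Mat N)) (fun J => B.Q J 0) I := by
    rw [B.e0, map_smul, Finset.mul_sum]
    refine Finset.sum_congr rfl fun I _ => ?_
    rw [Pi.smul_apply, Pi.smul_apply, smul_eq_mul, smul_eq_mul]
    ring
  rw [e]
  exact mul_ne_zero (mul_ne_zero B.hc0 B.hc0) hd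

end Node

end Pool.Agent.Helper50.FQ
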