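import Pool.Agent.Helper50.FQ.DirS

/-!
# Project FQ (MP_0f6f3f_an), layer SOURCES: the irreducible components of a closed set of roots

`S` a closed symmetric set of roots (`Clo G V S`, matrices). `cls S C`: the component of `C`, the roots in `S` which are connected with `C` by a chain of non orthogonal roots. `clo_cls`, `irrS_cls`: it is closed and irreducible. `sem_cls`: the space spanned by `gens G V S` is the sum of the simple algebras
spanned by the `gens G V (cls S C)`, `C ∈ S` (`Sem`).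
-/

set_option autoImplicit false

open MeasureTheory Filter Topology Matrix

namespace Pool.Agent.Helper50.FQ

open Pool.Agent.Helper96.SA Pool.Agent.Helper96.FR Pool.Agent.Helper43.TA Pool.Agent.Helper43.TZ Pool.Agent.Helper96.TO Pool.Agent.Helper50.SR

variable {N : ℕ} {G : Subgroup (GL (Fin N) ℝ)} {V : Submodule ℝ (Mat N)} {S : Set (Mat N)}

/-- The component of `C`. -/
def cls (S : Set (Mat N)) (C : Mat N) : Set (Mat N) :=
  {D | D ∈ S ∧ Relation.ReflTransGen (fun X Y => X ∈ S ∧ Y ∈ S ∧ (X * Y).trace ≠ 0) C D}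

theorem cls_sub (S : Set (Mat N)) (C : Mat N) : cls S C ⊆ S := fun _ h => h.1

theorem mem_cls_self {C : Mat N} (hC : C ∈ S) : C ∈ cls S C := ⟨hC, Relation.ReflTransGen.refl⟩

theorem cls_step {C D E : Mat N} (hD : D ∈ cls S C) (hE : E ∈ S) (h : (D * E).trace ≠ 0) : E ∈ cls S C :=
  ⟨hE, hD.2.tail ⟨hD.1, hE, h⟩⟩

theorem cls_orth {C D E : Mat N} (hD : D ∈ cls S C) (hE : E ∈ S) (hn : E ∉ cls S C) : (D * E).trace = 0 := by
  by_contra h
  exact hn (cls_step hD hE h)

private theorem rel_symm {C D : Mat N} (h : Relation.ReflTransGen (fun X Y => X ∈ S ∧ Y ∈ S ∧ (X * Y).trace ≠ 0) C D) :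
    Relation.ReflTransGen (fun X Y => X ∈ S ∧ Y ∈ S ∧ (X * Y).trace ≠ 0) D C := by
  induction h with
  | refl => exact Relation.ReflTransGen.refl
  | tail _ h ih => exact Relation.ReflTransGen.head ⟨h.2.1, h.1, by rw [Matrix.trace_mul_comm]; exact h.2.2⟩ ih

theorem cls_eq_of_mem {C D : Mat N} (h : D ∈ cls S C) : cls S D = cls S C := by
  ext E
  constructor
  · exact fun hE => ⟨hE.1, h.2.trans hE.2⟩
  · exact fun hE => ⟨hE.1, (rel_symm h.2).trans hE.2⟩

theorem clo_cls (hV : IsFlat G V) (hS : Clo G V S) (C : Mat N) : Clo G V (cls S C) := by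
  refine ⟨fun D hD => hS.sub hD.1, fun D hD => cls_step hD (hS.neg D hD.1) ?_, fun D hD E hE h => ?_⟩
  · rw [Matrix.mul_neg, Matrix.trace_neg]
    exact neg_ne_zero.2 (trace_self_pos (hV.symm _ (hS.sub hD.1).1) (hS.sub hD.1).2.1).ne'
  · have h1 := hS.add D hD.1 E hE.1 h
    have h2 := trace_self_pos (hV.symm _ h.1) h.2.1
    have e : ((D + E) * (D + E)).trace = (D * (D + E)).trace + (E * (D + E)).trace := by rw [Matrix.add_mul, Matrix.trace_add]
    rw [e] at h2
    by_cases h3 : (D * (D + E)).trace = 0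
    · rw [h3, zero_add] at h2
      exact cls_step hE h1 h2.ne'
    · exact cls_step hD h1 h3

theorem irrS_cls (C : Mat N) : IrrS (cls S C) := by
  intro A hA hne ho
  refine Set.Subset.antisymm hA ?_
  obtain ⟨D, hD⟩ := hne
  intro E hE
  have h1 : Relation.ReflTransGen (fun X Y => X ∈ S ∧ Y ∈ S ∧ (X * Y).trace ≠ 0) D E := (rel_symm (hA hD).2).trans hE.2
  have key : ∀ F, Relation.ReflTransGen (fun X Y => X ∈ S ∧ Y ∈ S ∧ (X * Y).trace ≠ 0) D F → F ∈ A := by
    intro F hF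
    induction hF with
    | refl => exact hD
    | tail _ h ih =>
      by_contra hn
      exact h.2.2 (ho _ ih _ (cls_step (hA ih) h.2.1 h.2.2) hn)
  exact key E h1

section

variable (hG : IsClosed (G : Set (GL (Fin N) ℝ))) (ht : ∀ X ∈ lie G, Xᵀ ∈ lie G) (hV : IsFlat G V)
  (hmax : ∀ Y ∈ lie G, Yᵀ = Y → (∀ H ∈ V, Y * H = H * Y) → Y ∈ V) (hS : Clo G V S)
include hG ht hV hmax hS

theorem isSim_cls {C : Mat N} (hC : C ∈ S) : IsSim (Submodule.span ℝ (gens G V (cls S C))) := by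
  refine isSim_gens hG ht hV hmax (clo_cls hV hS C) ⟨C, mem_cls_self hC⟩ (irrS_cls C) ?_
  intro H hH
  have hspanV : Submodule.span ℝ (cls S C) ≤ V := Submodule.span_le.2 fun D hD => (hS.sub hD.1).1
  obtain ⟨H₀, hH₀, h3⟩ := exists_decomp (Submodule.span ℝ (cls S C)) H
  refine ⟨H₀, hH₀, fun D hD => ?_⟩
  have h4 := h3 D (Submodule.subset_span hD)
  rwa [hV.symm _ (V.sub_mem hH (hspanV hH₀))] at h4

/-- The roots are in the span of the generators. -/
theorem mem_gens {C : Mat N} (hC : C ∈ S) : C ∈ Submodule.span ℝ (gens G V S) := by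
  obtain ⟨-, -, X, hX0, hX⟩ := hS.sub hC
  have hsub := lsub_gens hG ht hV hS
  have hXs : X ∈ Submodule.span ℝ (gens G V S) := Submodule.subset_span (Or.inl ⟨C, hC, hX⟩)
  have h1 := hsub.brk X hXs Xᵀ (hsub.tr X hXs)
  rw [coroot hG ht hV hmax (hS.sub hC).1 hX] at h1
  have h2 := (Submodule.span ℝ (gens G V S)).smul_mem (X * Xᵀ).trace⁻¹ h1
  rwa [smul_smul, inv_mul_cancel₀ (trace_mul_transpose_pos hX0).ne', one_smul] at h2

/-- Root vectors of different components commute. -/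
theorem comm_cls {C C' : Mat N} (hne : ∀ E ∈ cls S C', E ∉ cls S C) {X Y : Mat N}
    (hX : X ∈ Submodule.span ℝ (gens G V (cls S C))) (hY : Y ∈ Submodule.span ℝ (gens G V (cls S C'))) : X * Y = Y * X := by
  have h0 : ∀ D ∈ cls S C, ∀ E ∈ cls S C', ∀ X Y, Wt G V D X → Wt G V E Y → X * Y = Y * X := by
    intro D hD E hE X Y hX hY
    have hE' := hne E hE
    have hor : (D * E).trace = 0 := cls_orth hD hE.1 hE'
    have hor' : (E * D).trace = 0 := by rw [Matrix.trace_mul_comm]; exact hor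
    have hDD := trace_self_pos (hV.symm _ (hS.sub hD.1).1) (hS.sub hD.1).2.1
    have hEE := trace_self_pos (hV.symm _ (hS.sub hE.1).1) (hS.sub hE.1).2.1
    rcases (hX.bracket hG hY).zero_or (V.add_mem (hS.sub hD.1).1 (hS.sub hE.1).1) with h1 | h1 | h1
    · exact sub_eq_zero.1 h1
    · exfalso
      have h2 : (D * (D + E)).trace = (D * D).trace := by rw [Matrix.mul_add, Matrix.trace_add, hor, add_zero]
      rw [h1, Matrix.mul_zero, Matrix.trace_zero] at h2
      exact hDD.ne h2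
    · exfalso
      have h2 := hS.add D hD.1 E hE.1 h1
      have h3 : D + E ∈ cls S C := cls_step hD h2 (by rw [Matrix.mul_add, Matrix.trace_add, hor, add_zero]; exact hDD.ne')
      exact hE' (cls_step h3 hE.1 (by rw [Matrix.add_mul, Matrix.trace_add, hor, zero_add]; exact hEE.ne'))
  -- brackets
  have hbr : ∀ Z A B : Mat N, Z * A = A * Z → Z * B = B * Z → Z * (A * B - B * A) = (A * B - B * A) * Z := by
    intro Z A B h1 h2
    have e1 : Z * (A * B) = A * B * Z := by rw [← Matrix.mul_assoc, h1, Matrix.mul_assoc, h2, Matrix.mul_assoc]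
    have e2 : Z * (B * A) = B * A * Z := by rw [← Matrix.mul_assoc, h2, Matrix.mul_assoc, h1, Matrix.mul_assoc]
    rw [Matrix.mul_sub, Matrix.sub_mul, e1, e2]
  have h1 : ∀ X ∈ gens G V (cls S C), ∀ E ∈ cls S C', ∀ Y, Wt G V E Y → Y * X = X * Y := by
    rintro X (⟨D, hD, hX⟩ | ⟨D, hD, A, B, hA, hB, rfl⟩) E hE Y hY
    · exact (h0 D hD E hE X Y hX hY).symm
    · exact hbr _ _ _ (h0 D hD E hE A Y hA hY).symm (h0 _ ((clo_cls hV hS C).neg D hD) E hE B Y hB hY).symm
  have h2 : ∀ X ∈ gens G V (cls S C), ∀ Y ∈ gens G V (cls S C'), X * Y = Y * X := by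
    rintro X hX Y (⟨E, hE, hY⟩ | ⟨E, hE, A, B, hA, hB, rfl⟩)
    · exact (h1 X hX E hE Y hY).symm
    · exact hbr _ _ _ (h1 X hX E hE A hA).symm (h1 X hX _ ((clo_cls hV hS C').neg E hE) B hB).symm
  have h3 : ∀ X ∈ gens G V (cls S C), X * Y = Y * X := by
    intro X hX
    refine Submodule.span_induction (p := fun Y _ => X * Y = Y * X) (h2 X hX) ?_ ?_ ?_ hY
    · rw [Matrix.zero_mul, Matrix.mul_zero]
    · intro A B _ _ hA hB
      rw [Matrix.mul_add, Matrix.add_mul, hA, hB]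
    · intro r A _ hA
      rw [Matrix.mul_smul, Matrix.smul_mul, hA]
  refine Submodule.span_induction (p := fun X _ => X * Y = Y * X) h3 ?_ ?_ ?_ hX
  · rw [Matrix.zero_mul, Matrix.mul_zero]
  · intro A B _ _ hA hB
    rw [Matrix.mul_add, Matrix.add_mul, hA, hB]
  · intro r A _ hA
    rw [Matrix.mul_smul, Matrix.smul_mul, hA]

/-- **The decomposition.** -/
theorem sem_cls : Sem (Submodule.span ℝ (gens G V S)) (fun C : S => Submodule.span ℝ (gens G V (cls S (C : Mat N)))) := by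
  have hmono : ∀ C : S, gens G V (cls S (C : Mat N)) ⊆ gens G V S := by
    rintro C X (⟨D, hD, hX⟩ | ⟨D, hD, Y, Z, hY, hZ, rfl⟩)
    · exact Or.inl ⟨D, hD.1, hX⟩
    · exact Or.inr ⟨D, hD.1, Y, Z, hY, hZ, rfl⟩
  refine ⟨fun C => Submodule.span_mono (hmono C), ?_, fun C => (lsub_gens hG ht hV (clo_cls hV hS C)).brk, fun C => isSim_cls hG ht hV hmax hS C.2, ?_⟩
  · refine Submodule.span_le.2 ?_
    rintro X (⟨D, hD, hX⟩ | ⟨D, hD, Y, Z, hY, hZ, rfl⟩)
    · exact Submodule.mem_iSup_of_mem (⟨D, hD⟩ : S) (Submodule.subset_span (Or.inl ⟨D, mem_cls_self hD, hX⟩))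
    · exact Submodule.mem_iSup_of_mem (⟨D, hD⟩ : S) (Submodule.subset_span (Or.inr ⟨D, mem_cls_self hD, Y, Z, hY, hZ, rfl⟩))
  · intro C C'
    by_cases h1 : ∃ E ∈ cls S (C' : Mat N), E ∈ cls S (C : Mat N)
    · left
      obtain ⟨E, hE', hE⟩ := h1
      have h2 : cls S (C : Mat N) = cls S (C' : Mat N) := by rw [← cls_eq_of_mem hE, ← cls_eq_of_mem hE']
      show Submodule.span ℝ (gens G V (cls S (C : Mat N))) = Submodule.span ℝ (gens G V (cls S (C' : Mat N)))
      rw [h2]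
    · right
      push Not at h1
      intro X hX Y hY
      exact comm_cls hG ht hV hmax hS h1 hX hY

end

end Pool.Agent.Helper50.FQ
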