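import Pool.Agent.Helper50.FQ.PpS

/-!
# Project FQ (MP_0f6f3f_an), layer SOURCES: `Dir` for the whole Levi group

`DirS G F par s`: as `Dir` (file `Helper43/TZ/Src.lean`) with the group `S' = Cs s ≤ G`, `s` a Lie algebra of matrices commuting with `F`; the ping-pong holds for every `t ∈ Cs s` which does not commute with `s` (`NC s`), and the family is contained in `NC s`. `DirS.toDir`: `Dir` of dimension `finrank s`.
`exists_dirS`: for a sum of commuting simple algebras (`Sem s c`), each with a symmetric element and a representation `Rep (c k) (p k)`, `H (p k) = 0`. The boundary is the product of the boundaries `OmP (p k)`.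
-/

set_option autoImplicit false
set_option linter.unusedSectionVars false

open MeasureTheory Filter Topology Matrix

namespace Pool.Agent.Helper50.FQ

open Pool.Agent.Helper96.SA Pool.Agent.Helper96.FR Pool.Agent.Helper43.TA Pool.Agent.Helper43.TZ Pool.Agent.Helper50.SR

variable {M : ℕ} {G : Subgroup (GL (Fin M) ℝ)} {s : Submodule ℝ (Mat M)} {H : Mat M}

/-- `Dir` with the group `Cs s` and ping-pong for all elements which do not commute with `s`. -/
structure DirS (G : Subgroup (GL (Fin M) ℝ)) (F : Subgroup G) (par : G → ℝ) (s : Submodule ℝ (Mat M)) where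
  le : Cs s ≤ G
  cm : ∀ t : Cs s, ∀ f ∈ F, Subgroup.inclusion le t * f = f * Subgroup.inclusion le t
  /-- the boundary -/
  Ω : Type
  [iM : MeasurableSpace Ω]
  [iA : MulAction (Cs s) Ω]
  [iMS : MeasurableConstSMul (Cs s) Ω]
  /-- the boundary map -/
  κ : G → Ω
  κm : ∀ D : Set Ω, MeasurableSet D → MeasurableSet[borel G] (κ ⁻¹' D)
  κs : ∀ (t : Cs s) g, κ (Subgroup.inclusion le t * g) = t • κ g
  κq : ∀ (b : ℕ → G) (l : Filter ℕ) [l.NeBot], (∀ n, b n ∈ F) → Tendsto (fun n => par (b n)) l atTop →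
    ∀ q, Tendsto (fun n => b n * q * (b n)⁻¹) l (𝓝 1) → ∀ g, κ (q * g) = κ g
  maut : ∀ (b : ℕ → G) (l : Filter ℕ) [l.NeBot], (∀ n, b n ∈ F) → Tendsto (fun n => par (b n)) l atTop →
    ∀ {K : Type} [NormedAddCommGroup K] [InnerProductSpace ℂ K] (σ : G →* (K ≃ₗᵢ[ℂ] K)) (ξ : K), ξ ∈ contVec σ →
    (∀ q, Tendsto (fun n => b n * q * (b n)⁻¹) l (𝓝 1) → σ q ξ = ξ) → ∀ g, σ g ξ = ξ
  /-- the family -/
  fam : Fam (Cs s)
  famd : fam.d1 = Module.finrank ℝ s
  famS : fam.Sg ⊆ NC s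
  /-- the multiplicity -/
  mult : ℕ
  pp : ∀ t ∈ NC s, ∀ k : ℕ, ∃ (g : Fin k → Cs s) (D : Fin k → Set Ω), (∀ l, g l ∈ Subgroup.normalClosure {t}) ∧
    (∀ l, MeasurableSet (D l)) ∧ (∀ x, {l | x ∈ D l}.ncard ≤ mult) ∧ ∀ x, {l | (g l)⁻¹ • x ∉ D l}.ncard ≤ mult

attribute [instance] DirS.iM DirS.iA DirS.iMS

/-- `Dir` from `DirS`. -/
def DirS.toDir {F : Subgroup G} {par : G → ℝ} (D : DirS G F par s) : Dir G F par (Module.finrank ℝ s) where
  S' := Cs s
  ι := Subgroup.inclusion D.le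
  ιc := continuous_subtype_val.subtype_mk _
  cm := D.cm
  Ω := D.Ω
  κ := D.κ
  κm := D.κm
  κs := D.κs
  κq := D.κq
  maut := D.maut
  fam := D.fam
  famd := D.famd
  mult := D.mult
  pp := fun t ht => D.pp t (D.famS ht)

/-- The boundary: a product of spaces of nonzero matrices. -/
abbrev OmF {κ : Type} (p : κ → Mat M) : Type := (k : κ) → OmP (p k)

/-- The action on the boundary. -/
@[reducible] def actF {κ : Type} {p : κ → Mat M} (hc : ∀ k, ∀ g ∈ Cs s, ((g : GL (Fin M) ℝ) : Mat M) * p k = p k * (g : Mat M)) : MulAction (Cs s) (OmF p) where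
  smul g A := fun k => (actP (hc k)).smul g (A k)
  one_smul A := funext fun k => (actP (hc k)).one_smul (A k)
  mul_smul g h A := funext fun k => (actP (hc k)).mul_smul g h (A k)

theorem exists_dirS (hGc : IsClosed (G : Set (GL (Fin M) ℝ))) (hHt : Hᵀ = H) (hs : LSub G s) (hsH : ∀ X ∈ s, X * H = H * X)
    {κ : Type} [Finite κ] [Nonempty κ] {c : κ → Submodule ℝ (Mat M)} (hc : Sem s c)
    {Z : κ → Mat M} (hZ : ∀ k, Z k ∈ c k) (hZt : ∀ k, (Z k)ᵀ = Z k) (hZ0 : ∀ k, Z k ≠ 0) {p : κ → Mat M} (hp : ∀ k, Rep (c k) (p k))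
    (hsp : ∀ k, ∀ X ∈ s, X * p k = p k * X) (hHp : ∀ k, H * p k = 0)
    (hm : ∀ {K : Type} [NormedAddCommGroup K] [InnerProductSpace ℂ K] (σ : G →* (K ≃ₗᵢ[ℂ] K)) (ξ : K), ξ ∈ contVec σ →
      (∀ (X : Mat M) (hX : X ∈ lie G) (c : ℝ), c < 0 → H * X - X * H = c • X → ∀ τ : ℝ, σ ⟨ex (τ • X), mem_lie.1 hX τ⟩ ξ = ξ) →
      ∀ g, σ g ξ = ξ)
    (F : Subgroup G) (par : G → ℝ) (hF : ∀ f ∈ F, (f : GL (Fin M) ℝ) = ex (par f • H)) :
    Nonempty (DirS G F par s) := by
  obtain ⟨P, hP, hPt, hPc, hPk, hPq⟩ := exists_pos hHt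
  have hcp : ∀ k, ∀ g ∈ Cs s, ((g : GL (Fin M) ℝ) : Mat M) * p k = p k * (g : Mat M) := fun k g hg => Cs_comm (hsp k) hg
  have hcH : ∀ g ∈ Cs s, ((g : GL (Fin M) ℝ) : Mat M) * H = H * (g : Mat M) := fun g hg => Cs_comm hsH hg
  have hle : Cs s ≤ G := Cs_le hGc fun X hX => by
    have := mem_lie.1 (hs.mem X hX) 1
    rwa [one_smul] at this
  have hs0 : s ≠ ⊥ := by
    intro h0
    obtain ⟨A, hA, B, hB, hAB⟩ := (hc.sim (Classical.arbitrary κ)).ne
    have h1 := hc.le _ hA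
    rw [h0, Submodule.mem_bot] at h1
    apply hAB
    rw [h1, Matrix.zero_mul, Matrix.mul_zero]
  obtain ⟨Fm, hFm1, hFm2⟩ := exists_famSem hs0 fun X hX h1 => hc.center hs.tr hX h1
  -- contracted elements
  have hcon : ∀ (b : ℕ → G) (l : Filter ℕ) [l.NeBot], (∀ n, b n ∈ F) → Tendsto (fun n => par (b n)) l atTop →
      ∀ q : G, Tendsto (fun n => b n * q * (b n)⁻¹) l (𝓝 1) →
      P * ((q : GL (Fin M) ℝ) : Mat M) * P = P * ((q : GL (Fin M) ℝ) : Mat M) ∧ ∀ k, p k * ((q : GL (Fin M) ℝ) : Mat M) * (1 - P) = p k := by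
    intro b l _ hb hbp q hq
    have h1 : Tendsto (fun n => ((b n * q * (b n)⁻¹ : G) : GL (Fin M) ℝ)) l (𝓝 ((1 : G) : GL (Fin M) ℝ)) :=
      (continuous_subtype_val.tendsto _).comp hq
    have h2 := hPq l (fun n => par (b n)) (q : GL (Fin M) ℝ) hbp (h1.congr fun n => by
      rw [Subgroup.coe_mul, Subgroup.coe_mul, Subgroup.coe_inv, hF _ (hb n)])
    exact ⟨h2.1, fun k => h2.2 (p k) (hp k).pt (hHp k)⟩
  let iM0 : ∀ k, MeasurableSpace (OmP (p k)) := fun _ => borel _
  have iB0 : ∀ k, @BorelSpace (OmP (p k)) _ (iM0 k) := fun k => @BorelSpace.mk _ _ (iM0 k) rfl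
  let iM : MeasurableSpace (OmF p) := @MeasurableSpace.pi κ (fun k => OmP (p k)) iM0
  let iA : MulAction (Cs s) (OmF p) := actF hcp
  have iMS : @MeasurableConstSMul (Cs s) (OmF p) _ iM := by
    refine @MeasurableConstSMul.mk _ _ _ iM fun g => ?_
    refine measurable_pi_lambda _ fun k => ?_
    have h1 : Continuous fun A : OmP (p k) => ((actP (hcp k)).smul g A : OmP (p k)) := by
      refine Continuous.subtype_mk (f := fun A : OmP (p k) => ((g : GL (Fin M) ℝ) : Mat M) * (A : Mat M)) ?_ _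
      exact continuous_const.mul continuous_subtype_val
    exact h1.measurable.comp (measurable_pi_apply k)
  refine ⟨{
    le := hle
    cm := ?_
    Ω := OmF p
    iM := iM
    iA := iA
    iMS := iMS
    κ := fun g k => ⟨kp P (p k) ((g : GL (Fin M) ℝ) : Mat M), p_kp (hp k).pp _, kp_ne hP hPt (hPk (p k) (hHp k)) (hp k).pp (hp k).p0 _⟩
    κm := ?_
    κs := ?_
    κq := ?_
    maut := ?_
    fam := Fm
    famd := hFm1
    famS := hFm2
    mult := M
    pp := ?_ }⟩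
  · intro t f hf
    refine Subtype.ext ?_
    show (t : GL (Fin M) ℝ) * (f : GL (Fin M) ℝ) = (f : GL (Fin M) ℝ) * (t : GL (Fin M) ℝ)
    rw [hF f hf]
    refine ex_commute ?_
    rw [mul_smul_comm, smul_mul_assoc, hcH t t.2]
  · intro D hD
    let _ : MeasurableSpace G := borel G
    have _ : BorelSpace G := ⟨rfl⟩
    have h1 : Measurable fun g : G => (fun k => ⟨kp P (p k) ((g : GL (Fin M) ℝ) : Mat M), p_kp (hp k).pp _,
        kp_ne hP hPt (hPk (p k) (hHp k)) (hp k).pp (hp k).p0 _⟩ : OmF p) := by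
      refine measurable_pi_lambda _ fun k => ?_
      have h2 : Continuous fun g : G => (⟨kp P (p k) ((g : GL (Fin M) ℝ) : Mat M), p_kp (hp k).pp _,
          kp_ne hP hPt (hPk (p k) (hHp k)) (hp k).pp (hp k).p0 _⟩ : OmP (p k)) :=
        Continuous.subtype_mk ((continuous_kp hP hPt).comp continuous_subtype_val) _
      exact h2.measurable
    exact h1 hD
  · intro t g
    refine funext fun k => Subtype.ext ?_
    exact kp_mul hP hPt (hPc _ (hcH t t.2)) (hcp k t t.2) (g : GL (Fin M) ℝ)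
  · intro b l _ hb hbp q hq g
    refine funext fun k => Subtype.ext ?_
    have h1 := hcon b l hb hbp q hq
    have h2 := hcon b l hb hbp q⁻¹ (by
      have h3 := hq.inv
      rw [inv_one] at h3
      refine h3.congr fun n => ?_
      rw [_root_.mul_inv_rev, _root_.mul_inv_rev, _root_.inv_inv, mul_assoc])
    exact kp_contr hP hPt h1.1 h2.1 (h1.2 k) (g : GL (Fin M) ℝ)
  · intro b l _ hb hbp K _ _ σ ξ hξ h g
    refine hm σ ξ hξ (fun X hX c hc hHX τ => h _ ?_) g
    rw [tendsto_subtype_rng]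
    have h1 : Tendsto (fun n => ex ((τ * Real.exp (c * par (b n))) • X)) l (𝓝 1) := by
      have h2 : Tendsto (fun n => (τ * Real.exp (c * par (b n))) • X) l (𝓝 ((τ * 0) • X)) :=
        Tendsto.smul_const (Tendsto.const_mul τ (Real.tendsto_exp_atBot.comp (hbp.const_mul_atTop_of_neg hc))) X
      rw [mul_zero, zero_smul] at h2
      have h3 := (continuous_ex.tendsto (0 : Mat M)).comp h2
      rwa [ex_zero] at h3
    refine h1.congr fun n => ?_
    rw [Subgroup.coe_mul, Subgroup.coe_mul, Subgroup.coe_inv, hF _ (hb n)]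
    exact (conj_neg hHt hHX _ _).symm
  · intro t ht k
    obtain ⟨j, hj⟩ : ∃ j, ∃ Y ∈ c j, ((t : GL (Fin M) ℝ) : Mat M) * Y ≠ Y * ((t : GL (Fin M) ℝ) : Mat M) := by
      by_contra hcon
      push Not at hcon
      obtain ⟨Y, hY, hne⟩ := ht
      exact hne (hc.comm_of hcon hY)
    obtain ⟨g, D, hg, hD, hD1, hD2⟩ := pp_sem (hc.le j) (fun Y hY => hc.ideal j hY) (hp j) (hsp j) (hZ j) (hZt j) (hZ0 j) hj k
    refine ⟨g, fun l => {A : OmF p | ((A j : OmP (p j)) : Mat M) ∈ D l}, hg, fun l => ?_,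
      fun x => hD1 (x j) (x j).2.1 (x j).2.2, fun x => hD2 (x j) (x j).2.1 (x j).2.2⟩
    have h1 : MeasurableSet (Subtype.val ⁻¹' (D l) : Set (OmP (p j))) := ((hD l).preimage continuous_subtype_val).measurableSet
    exact (measurable_pi_apply j) h1

end Pool.Agent.Helper50.FQ
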