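import Pool.Agent.Helper55.FQ.Cfg
import Pool.Agent.Helper50.FQ.CelF
import Pool.Agent.Helper50.FQ.Nod

/-!
# Project FQ (MP_0f6f3f_an): the data of the nodes in the language of the assembly

`wn_coe`, `wn_mem`, `wn_pow`: the elements `wn D u n`. `gr_twoN`, `cf_datN`: the `r - 1` commuting elements in the centraliser of the one parameter group of the node `u`. `gr_qk`, `gr_qk'`: `G = N_u Z(w_u) K`, both signs.
-/

set_option autoImplicit false
set_option linter.unusedSectionVars false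

open Filter Topology MeasureTheory Matrix

namespace Pool.Agent.Helper50.FQ

open Pool.Agent.Helper84.NI Pool.Agent.Helper84.GVN Pool.Agent.Helper90.RK
open Pool.Agent.Helper96.RK Pool.Agent.Helper66.FR Pool.Agent.Helper84.FR Pool.Agent.Helper55.FR Pool.Agent.Helper78.BM
open Pool.Agent.Helper96.SA Pool.Agent.Helper96.TO
open Pool.Agent.Helper35.TZ (autC isAdj_autC)
open Pool.Agent.Helper84.GDL (GD SI)
open Pool.Agent.Helper55.FQ
open Pool.Agent.Helper43.FQ (TwoN DatN)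
open Pool.Agent.Helper43.TZ (opg)
open Pool.Agent.Helper77.FQ (eaG eaG_coe eaA_single)
open Pool.Agent.Helper46.FQ

section KQ

variable {N : ℕ}

/-- `G = N Z(H) K`. -/
theorem qk_gen {G : Subgroup (GL (Fin N) ℝ)} (hG : SelfAdj G) {H : Mat N} (hs : Hᵀ = H) (hH : H ∈ lie G) (g : G) :
    ∃ x y k : G, g = x * y * k ∧ k ∈ KS G ∧ (∀ t : ℝ, (y : GL (Fin N) ℝ) * ex (t • H) = ex (t • H) * y) ∧
      Tendsto (fun t : ℝ => cj H t (x : GL (Fin N) ℝ)) atTop (𝓝 1) := by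
  obtain ⟨r, hr, -⟩ := exists_rt hG hs hH g⁻¹
  obtain ⟨q, hq⟩ : ∃ q : Qg G H, q = r⁻¹ := ⟨_, rfl⟩
  refine ⟨(q : G) * (DG hG.closed hH q)⁻¹, DG hG.closed hH q, (g⁻¹ * (r : G)⁻¹)⁻¹, ?_, (KS G).inv_mem hr, fun t => ?_, ?_⟩
  · rw [hq]
    simp
  · rw [DG_coe]
    exact Dh_commute_ex H _ t
  · have h1 := Dh_spec H (toPg G H q)
    have h2 : ∀ t, cj H t (((DG hG.closed hH q)⁻¹ : G) : GL (Fin N) ℝ) = (Dh H (toPg G H q))⁻¹ := by
      intro t
      rw [Subgroup.coe_inv, cj_inv, DG_coe, cj_Dh]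
    have h3 := h1.mul (tendsto_const_nhds (x := (Dh H (toPg G H q))⁻¹) (f := (atTop : Filter ℝ)))
    rw [mul_inv_cancel] at h3
    refine h3.congr fun t => ?_
    rw [Subgroup.coe_mul, cj_mul, h2]
    rfl

end KQ

section Gr

variable {L : Type} [LieRing L] [LieAlgebra ℝ L] {N : ℕ} {r : ℕ} {θ : L ≃ₗ⁅ℝ⁆ L} {b : Module.Basis (Fin N) ℝ L}
  {A : Submodule ℝ L} {τ : Module.Dual ℝ A ≃ₗ[ℝ] A} {al : Fin r → Module.Dual ℝ A} {W : Fin r → A} {D : GD (autC b) (Fin r)}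

theorem ea_single_coe (G : Gr θ b A τ al W D) (u : Fin r) (t : ℝ) :
    ((D.ea (Pi.single u t) : autC b) : GL (Fin N) ℝ) = ex (t • TT_to b (W u : L)) := by
  rw [G.ea, eaG_coe, eaA_single, Submodule.coe_smul, map_smul]

theorem wn_coe (G : Gr θ b A τ al W D) (u : Fin r) (n : ℕ) :
    ((wn D u n : autC b) : GL (Fin N) ℝ) = ex ((n : ℝ) • TT_to b (W u : L)) := ea_single_coe G u n

theorem wn_mem (G : Gr θ b A τ al W D) (u : Fin r) (n : ℕ) : wn D u n ∈ opg (autC b) (TT_to b (W u : L)) := ⟨n, wn_coe G u n⟩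

theorem ea_single_mem (G : Gr θ b A τ al W D) (u : Fin r) (t : ℝ) : D.ea (Pi.single u t) ∈ opg (autC b) (TT_to b (W u : L)) :=
  ⟨t, ea_single_coe G u t⟩

theorem wn_pow (G : Gr θ b A τ al W D) (u : Fin r) (n : ℕ) : wn D u n = wn D u 1 ^ n := by
  induction n with
  | zero =>
    apply Subtype.ext
    rw [wn_coe G, pow_zero, Nat.cast_zero, zero_smul, ex_zero]
    rfl
  | succ n ih =>
    rw [pow_succ, ← ih]
    apply Subtype.ext
    rw [Subgroup.coe_mul, wn_coe G, wn_coe G, wn_coe G, ← ex_add_smul]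
    push_cast
    rfl

/-- The `r - 1` commuting elements in the centraliser of the one parameter group of a node. -/
theorem gr_twoN (G : Gr θ b A τ al W D) (u : Fin r) {s : ℕ} (hs : s + 1 = r) : TwoN s (opg (autC b) (TT_to b (W u : L))) := by
  subst hs
  exact twoN_node G.s.h (isAdj_autC b) G.s.hA G.s.hS.root G.hW u

theorem sa_autC (G : Gr θ b A τ al W D) : SelfAdj (autC b) := selfAdj_of_aut G.s.h (isAdj_autC b)

theorem sym_W (G : Gr θ b A τ al W D) (u : Fin r) : (TT_to b (W u : L))ᵀ = TT_to b (W u : L) :=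
  (TT_symm_iff_to G.s.h _).2 (G.s.hA.neg _ (W u).2)

theorem lie_W (u : Fin r) : TT_to b (W u : L) ∈ lie (autC b) := by
  rw [mem_lie]
  intro t
  rw [← map_smul]
  exact (isAdj_autC b).exp_ad _

/-- `G = N_u Z(w_u) K`. -/
theorem gr_qk (G : Gr θ b A τ al W D) (u : Fin r) (g : autC b) : ∃ x ∈ Ctr (wn D u), ∃ y ∈ cen (wn D u), ∃ k ∈ D.K, g = x * y * k := by
  have hs : (-TT_to b (W u : L))ᵀ = -TT_to b (W u : L) := by rw [transpose_neg, sym_W G]
  have hl : -TT_to b (W u : L) ∈ lie (autC b) := by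
    rw [← map_neg, mem_lie]
    intro t
    rw [← map_smul]
    exact (isAdj_autC b).exp_ad _
  obtain ⟨x, y, k, h1, h2, h3, h4⟩ := qk_gen (sa_autC G) hs hl g
  refine ⟨x, ?_, y, ?_, k, (G.K k).2 (mem_KS.1 h2), h1⟩
  · change Tendsto (fun n => wn D u n * x * (wn D u n)⁻¹) (hyperfilter ℕ) (𝓝 1)
    rw [nhds_subtype_eq_comap, tendsto_comap_iff]
    have h5 : Tendsto (fun n : ℕ => (n : ℝ)) (hyperfilter ℕ : Filter ℕ) atTop := tendsto_natCast_atTop_atTop.mono_left Nat.hyperfilter_le_atTop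
    refine (h4.comp h5).congr fun n => ?_
    simp only [Function.comp_apply, Subgroup.coe_mul, Subgroup.coe_inv, wn_coe G, Pool.Agent.Helper46.FQ.cj, smul_neg, ex_neg, inv_inv]
  · rw [mem_cen]
    intro n
    apply Subtype.ext
    rw [Subgroup.coe_mul, Subgroup.coe_mul, wn_coe G]
    have h5 := h3 (-(n : ℝ))
    rw [smul_neg, neg_smul, neg_neg] at h5
    exact h5.symm

/-- `G = N_u⁻ Z(w_u) K`. -/
theorem gr_qk' (G : Gr θ b A τ al W D) (u : Fin r) (g : autC b) :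
    ∃ x ∈ Ctr (fun n => (wn D u n)⁻¹), ∃ y ∈ cen (wn D u), ∃ k ∈ D.K, g = x * y * k := by
  obtain ⟨x, y, k, h1, h2, h3, h4⟩ := qk_gen (sa_autC G) (sym_W G u) (lie_W u) g
  refine ⟨x, ?_, y, ?_, k, (G.K k).2 (mem_KS.1 h2), h1⟩
  · change Tendsto (fun n => (wn D u n)⁻¹ * x * ((wn D u n)⁻¹)⁻¹) (hyperfilter ℕ) (𝓝 1)
    rw [nhds_subtype_eq_comap, tendsto_comap_iff]
    have h5 : Tendsto (fun n : ℕ => (n : ℝ)) (hyperfilter ℕ : Filter ℕ) atTop := tendsto_natCast_atTop_atTop.mono_left Nat.hyperfilter_le_atTop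
    refine (h4.comp h5).congr fun n => ?_
    simp only [Function.comp_apply, Subgroup.coe_mul, Subgroup.coe_inv, wn_coe G, Pool.Agent.Helper46.FQ.cj, inv_inv]
  · rw [mem_cen]
    intro n
    apply Subtype.ext
    rw [Subgroup.coe_mul, Subgroup.coe_mul, wn_coe G]
    exact (h3 n).symm

end Gr

section Cf

variable {L L' : Type} [LieRing L] [LieAlgebra ℝ L] [LieRing L'] [LieAlgebra ℝ L'] {N N' : ℕ} {r : ℕ}
  {θ : L ≃ₗ⁅ℝ⁆ L} {θ' : L' ≃ₗ⁅ℝ⁆ L'} {b : Module.Basis (Fin N) ℝ L} {b' : Module.Basis (Fin N') ℝ L'}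
  {A : Submodule ℝ L} {A' : Submodule ℝ L'} {τ : Module.Dual ℝ A ≃ₗ[ℝ] A} {τ' : Module.Dual ℝ A' ≃ₗ[ℝ] A'}
  {al : Fin r → Module.Dual ℝ A} {al' : Fin r → Module.Dual ℝ A'} {W : Fin r → A} {W' : Fin r → A'}
  {D : GD (autC b) (Fin r)} {D' : GD (autC b') (Fin r)} [MeasurableSpace (autC b)] [BorelSpace (autC b)]
  {Γ : Subgroup (autC b)} {Λ : Subgroup (autC b')} [Countable Γ] [Countable Λ]
  {X : Type} [MeasurableSpace X] [MulAction (autC b) X] [MeasurableConstSMul (autC b) X] {μ : Measure X}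
  [SMulInvariantMeasure (autC b) X μ] [IsProbabilityMeasure μ] {a : Cocy (autC b) X Γ} {E : Emb Γ Λ}

/-- The data of a node. -/
theorem cf_datN (C : Cf θ θ' A A' τ τ' al al' W W' D D' μ a E) (u : Fin r) {s : ℕ} (hs : s + 1 = r) :
    Nonempty (DatN μ a (opg (autC b) (TT_to b (W u : L))) s) := by
  refine Pool.Agent.Helper43.FQ.exists_datN C.cyc.h3 C.cyc.hF2 (fun F' hF' => ⟨?_, C.cyc.hF4 F' hF'⟩) (gr_twoN C.G u hs)
  have := hF'
  exact Pool.Agent.Helper96.FR.countable_of_discrete F'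

end Cf

end Pool.Agent.Helper50.FQ
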