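import Pool.Agent.Helper50.FQ.Cls
import Pool.Agent.Helper50.SR.Fin
import Pool.Agent.Helper87.FQ.La

/-!
# Project FQ (MP_0f6f3f_an), layer SOURCES: the whole Levi group of an element of the flat

`H ∈ A`, `lsub A H` (`Helper87/FQ/La.lean`) the subalgebra generated by the root spaces of the roots which vanish at `H`, `sH = TT_to b '' (lsub A H)`. `map_lsub`: it is the space spanned by `gens G V S`, `S` the set of the roots (matrices) orthogonal to `H`.
`src_dirS`: `DirS G F par sH`; `src_dirL`, `src_dirL'`: `Dir G F (± par) (finrank (lsub A H))` if some root vanishes at `H ≠ 0`. `src_levi`: everything for the one-parameter group of `H`.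
-/

set_option autoImplicit false

open MeasureTheory Filter Topology Matrix

namespace Pool.Agent.Helper50.FQ

open Pool.Agent.Helper96.SA Pool.Agent.Helper96.FR Pool.Agent.Helper43.TA Pool.Agent.Helper43.TZ Pool.Agent.Helper96.TO Pool.Agent.Helper50.SR
open Pool.Agent.Helper87.FQ (lsub)

variable {L : Type} [LieRing L] [LieAlgebra ℝ L] {N : ℕ} {θ : L ≃ₗ⁅ℝ⁆ L} {b : Module.Basis (Fin N) ℝ L}
  {G : Subgroup (GL (Fin N) ℝ)} {A : Submodule ℝ L}

/-- The orthogonal projection on a subspace, as a matrix. -/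
private theorem exists_proj50 (U : Submodule ℝ (Fin N → ℝ)) : ∃ p : Mat N, pᵀ = p ∧ (∀ v ∈ U, p *ᵥ v = v) ∧
    ∀ v, p *ᵥ v ∈ U := by
  let e : EuclideanSpace ℝ (Fin N) ≃ₗ[ℝ] (Fin N → ℝ) := WithLp.linearEquiv 2 ℝ (Fin N → ℝ)
  let U' : Submodule ℝ (EuclideanSpace ℝ (Fin N)) := U.comap (e : EuclideanSpace ℝ (Fin N) →ₗ[ℝ] (Fin N → ℝ))
  let P : EuclideanSpace ℝ (Fin N) →L[ℝ] EuclideanSpace ℝ (Fin N) := U'.starProjection
  let f : (Fin N → ℝ) →ₗ[ℝ] (Fin N → ℝ) := (e : EuclideanSpace ℝ (Fin N) →ₗ[ℝ] (Fin N → ℝ)) ∘ₗ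
    (P : EuclideanSpace ℝ (Fin N) →ₗ[ℝ] EuclideanSpace ℝ (Fin N)) ∘ₗ (e.symm : (Fin N → ℝ) →ₗ[ℝ] EuclideanSpace ℝ (Fin N))
  have hf : ∀ v, f v = e (P (e.symm v)) := fun v => rfl
  have hmem : ∀ w, w ∈ U' ↔ e w ∈ U := fun w => Iff.rfl
  refine ⟨LinearMap.toMatrix' f, ?_, ?_, ?_⟩
  · ext i j
    rw [Matrix.transpose_apply, LinearMap.toMatrix'_apply, LinearMap.toMatrix'_apply, hf, hf]
    have h1 := Submodule.inner_starProjection_left_eq_right U' (e.symm (Pi.single i 1)) (e.symm (Pi.single j 1))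
    have h2 : ∀ (k : Fin N) (w : EuclideanSpace ℝ (Fin N)), inner ℝ (e.symm (Pi.single k 1)) w = e w k := by
      intro k w
      have h3 := EuclideanSpace.inner_single_left (𝕜 := ℝ) k (1 : ℝ) w
      rw [map_one, one_mul] at h3
      exact h3
    rw [h2, real_inner_comm, h2] at h1
    exact h1
  · intro v hv
    rw [LinearMap.toMatrix'_mulVec, hf]
    have h1 : P (e.symm v) = e.symm v := by
      refine (Submodule.starProjection_eq_self_iff).2 ?_
      rw [hmem, LinearEquiv.apply_symm_apply]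
      exact hv
    rw [h1, LinearEquiv.apply_symm_apply]
  · intro v
    rw [LinearMap.toMatrix'_mulVec, hf, ← hmem]
    exact Submodule.starProjection_apply_mem _ _

private theorem mat_ext50 {A B : Mat N} (h : ∀ v, A *ᵥ v = B *ᵥ v) : A = B := by
  apply Matrix.toLin'.injective
  refine LinearMap.ext fun v => ?_
  rw [Matrix.toLin'_apply, Matrix.toLin'_apply]
  exact h v

theorem exists_p' (h : CartanBasis θ b) (hG : IsAdj b G) {s s' : Submodule ℝ (Mat N)} (hs : LSub G s) (hsim : IsSim s)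
    (hs' : LSub G s') (hss : s ≤ s') (hid : ∀ Y ∈ s', ∀ X ∈ s, Y * X - X * Y ∈ s)
    {H : Mat N} (hH : H ∈ lie G) (hsH : ∀ X ∈ s, X * H = H * X) :
    ∃ p : Mat N, Rep s p ∧ (∀ X ∈ s', X * p = p * X) ∧ H * p = 0 := by
  have hlie : lie G = lie (autG b) := lie_eq' hG.aut (Pool.Agent.Helper96.SA.lie_sub h hG)
  have hsur : ∀ X ∈ s, ∃ x : L, TT_to b x = X := fun X hX => TT_surj_to h (hlie ▸ hs.mem X hX)
  have hsur' : ∀ X ∈ s', ∃ x : L, TT_to b x = X := fun X hX => TT_surj_to h (hlie ▸ hs'.mem X hX)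
  have hmul : ∀ x y : L, TT_to b x *ᵥ b.equivFun y = b.equivFun ⁅x, y⁆ := by
    intro x y
    rw [← toLin_coord, toLin_TT_to]
  obtain ⟨U, hU⟩ : ∃ U : Submodule ℝ (Fin N → ℝ), U = (s.comap (TT_to b)).map (b.equivFun : L →ₗ[ℝ] (Fin N → ℝ)) :=
    ⟨_, rfl⟩
  have hU1 : ∀ x : L, TT_to b x ∈ s → b.equivFun x ∈ U := by
    intro x hx
    rw [hU]
    exact ⟨x, hx, rfl⟩
  have hU2 : ∀ v ∈ U, ∃ x : L, TT_to b x ∈ s ∧ b.equivFun x = v := by
    intro v hv
    rw [hU] at hv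
    obtain ⟨x, hx, rfl⟩ := hv
    exact ⟨x, hx, rfl⟩
  have hinv : ∀ X ∈ s', ∀ v ∈ U, X *ᵥ v ∈ U := by
    intro X hX v hv
    obtain ⟨x, rfl⟩ := hsur' X hX
    obtain ⟨y, hy, rfl⟩ := hU2 v hv
    rw [hmul]
    refine hU1 _ ?_
    rw [TT_lie_to]
    exact hid _ hX _ hy
  obtain ⟨p, pt, p1, p2⟩ := exists_proj50 U
  have pp : p * p = p := by
    refine mat_ext50 fun v => ?_
    rw [← Matrix.mulVec_mulVec]
    exact p1 _ (p2 v)
  have half : ∀ X ∈ s', p * X * p = X * p := by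
    intro X hX
    refine mat_ext50 fun v => ?_
    rw [Matrix.mul_assoc, ← Matrix.mulVec_mulVec, ← Matrix.mulVec_mulVec]
    exact p1 _ (hinv X hX _ (p2 v))
  have sp' : ∀ X ∈ s', X * p = p * X := by
    intro X hX
    have h1 := half X hX
    have h2 := congrArg Matrix.transpose (half _ (hs'.tr X hX))
    rw [Matrix.transpose_mul, Matrix.transpose_mul, Matrix.transpose_mul, Matrix.transpose_transpose, pt,
      ← Matrix.mul_assoc] at h2
    rw [← h1, h2]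
  have sp : ∀ X ∈ s, X * p = p * X := fun X hX => sp' X (hss hX)
  obtain ⟨X, hX, Y, hY, hXY⟩ := hsim.ne
  obtain ⟨x, rfl⟩ := hsur X hX
  obtain ⟨y, rfl⟩ := hsur Y hY
  have hxy : b.equivFun ⁅x, y⁆ ≠ 0 := by
    intro h1
    have h2 : ⁅x, y⁆ = 0 := b.equivFun.injective (by rw [h1, map_zero])
    refine hXY (sub_eq_zero.1 ?_)
    rw [← TT_lie_to, h2, map_zero]
  have act : TT_to b x * p ≠ 0 := by
    intro h1
    refine hxy ?_
    rw [← hmul, ← p1 _ (hU1 y hY), Matrix.mulVec_mulVec, h1, Matrix.zero_mulVec]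
  refine ⟨p, ⟨hs.brk, hsim, pp, pt, ?_, sp, ?_, ⟨_, hX, act⟩⟩, sp', ?_⟩
  · intro h1
    refine act ?_
    rw [h1, Matrix.mul_zero]
  · intro U' hU' hinv'
    have hle : ∀ v ∈ U', v ∈ U := by
      intro v hv
      rw [← hU' v hv]
      exact p2 v
    obtain ⟨I, hI⟩ : ∃ I : Submodule ℝ (Mat N), I = (U'.comap (b.equivFun : L →ₗ[ℝ] (Fin N → ℝ))).map (TT_to b) :=
      ⟨_, rfl⟩
    have hI1 : ∀ z : L, b.equivFun z ∈ U' → TT_to b z ∈ I := by
      intro z hz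
      rw [hI]
      exact ⟨z, hz, rfl⟩
    have hI2 : ∀ Z ∈ I, ∃ z : L, b.equivFun z ∈ U' ∧ TT_to b z = Z := by
      intro Z hZ
      rw [hI] at hZ
      obtain ⟨z, hz, rfl⟩ := hZ
      exact ⟨z, hz, rfl⟩
    have hIs : I ≤ s := by
      intro Z hZ
      obtain ⟨z, hz, rfl⟩ := hI2 Z hZ
      obtain ⟨w, hw, hwz⟩ := hU2 _ (hle _ hz)
      rwa [← b.equivFun.injective hwz]
    have hideal : ∀ Z ∈ I, ∀ W ∈ s, W * Z - Z * W ∈ I := by
      intro Z hZ W hW
      obtain ⟨z, hz, rfl⟩ := hI2 Z hZ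
      obtain ⟨w, rfl⟩ := hsur W hW
      rw [← TT_lie_to]
      refine hI1 _ ?_
      rw [← hmul]
      exact hinv' _ hW _ hz
    rcases hsim.ideal I hIs hideal with h1 | h1
    · left
      rw [eq_bot_iff]
      intro v hv
      obtain ⟨z, -, rfl⟩ := hU2 v (hle v hv)
      have h2 := hI1 z hv
      rw [h1, Submodule.mem_bot] at h2
      have h3 : z = 0 := TT_inj_to h (by rw [h2, map_zero])
      rw [h3, map_zero]
      exact Submodule.zero_mem _
    · right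
      intro v
      obtain ⟨z, hz, hz'⟩ := hU2 _ (p2 v)
      rw [← h1] at hz
      obtain ⟨w, hw, hwz⟩ := hI2 _ hz
      rw [← hz', ← TT_inj_to h hwz]
      exact hw
  · obtain ⟨H0, rfl⟩ := TT_surj_to h (hlie ▸ hH)
    refine mat_ext50 fun v => ?_
    obtain ⟨z, hz, hz'⟩ := hU2 _ (p2 v)
    rw [← Matrix.mulVec_mulVec, ← hz', hmul, Matrix.zero_mulVec]
    have h1 : ⁅H0, z⁆ = 0 := by
      refine TT_inj_to h ?_
      rw [TT_lie_to, hsH _ hz, sub_self, map_zero]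
    rw [h1, map_zero]

/-- The roots (matrices) which are orthogonal to `H`. -/
def SH (G : Subgroup (GL (Fin N) ℝ)) (V : Submodule ℝ (Mat N)) (H : Mat N) : Set (Mat N) := {C | C ∈ Rt G V ∧ (C * H).trace = 0}

theorem clo_SH {V : Submodule ℝ (Mat N)} (ht : ∀ X ∈ lie G, Xᵀ ∈ lie G) (hV : IsFlat G V) (H : Mat N) : Clo G V (SH G V H) := by
  refine ⟨fun D hD => hD.1, ?_, ?_⟩
  · rintro D ⟨⟨hDV, hD0, X, hX0, hX⟩, hDH⟩
    refine ⟨⟨V.neg_mem hDV, neg_ne_zero.2 hD0, Xᵀ, ?_, hX.transpose ht hV.symm⟩, by rw [Matrix.neg_mul, Matrix.trace_neg, hDH, neg_zero]⟩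
    intro h
    apply hX0
    have h1 := congrArg Matrix.transpose h
    rwa [Matrix.transpose_transpose, Matrix.transpose_zero] at h1
  · rintro D ⟨-, hD⟩ D' ⟨-, hD'⟩ h
    exact ⟨h, by rw [Matrix.add_mul, Matrix.trace_add, hD, hD', add_zero]⟩

/-- The space `TT_to b '' lsub A H`. -/
noncomputable def sH (b : Module.Basis (Fin N) ℝ L) (A : Submodule ℝ L) (H : A) : Submodule ℝ (Mat N) := (lsub A H).toSubmodule.map (TT_to b)

theorem finrank_sH (h : CartanBasis θ b) (H : A) : Module.finrank ℝ (sH b A H) = Module.finrank ℝ (lsub A H) :=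
  finrank_map_to (TT_inj_to h) _

theorem map_lsub (h : CartanBasis θ b) (hG : IsAdj b G) (hA : MaxFlat θ A) (H : A) :
    sH b A H = Submodule.span ℝ (gens G (A.map (TT_to b)) (SH G (A.map (TT_to b)) (TT_to b (H : L)))) := by
  have hSA := selfAdj_of_aut h hG
  have ht : ∀ X ∈ lie G, Xᵀ ∈ lie G := fun X hX => lie_transpose hSA hX
  have hV := isFlat_map h hG hA
  have hlie : lie G = lie (autG b) := lie_eq' hG.aut (Pool.Agent.Helper96.SA.lie_sub h hG)
  obtain ⟨cm, hinj, hcm, htr, hrt, hwt⟩ := Helper77.LA.exists_cm h hG hA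
  have hmem : ∀ (φ : Module.Dual ℝ A) (x : L), Pool.Agent.Helper69.SLN.Wv A φ x ↔ Wt G (A.map (TT_to b)) (cm φ) (TT_to b x) := fun φ x => hwt φ x
  -- every matrix of the flat is the matrix of a functional
  have hsurj : ∀ C ∈ A.map (TT_to b), ∃ φ : Module.Dual ℝ A, cm φ = C := by
    intro C hC
    obtain ⟨φ, hφ⟩ : ∃ φ : Module.Dual ℝ A, ∀ x : A, (C * TT_to b (x : L)).trace = φ x :=
      ⟨{ toFun := fun x => (C * TT_to b (x : L)).trace
         map_add' := fun x y => by rw [Submodule.coe_add, map_add, Matrix.mul_add, Matrix.trace_add]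
         map_smul' := fun r x => by rw [Submodule.coe_smul, map_smul, Matrix.mul_smul, Matrix.trace_smul, RingHom.id_apply] }, fun _ => rfl⟩
    refine ⟨φ, ?_⟩
    by_contra hne
    have hD : C - cm φ ≠ 0 := fun h0 => hne (sub_eq_zero.1 h0).symm
    have hDV : C - cm φ ∈ A.map (TT_to b) := Submodule.sub_mem _ hC (hcm φ)
    have hpos := trace_self_pos (hV.symm _ hDV) hD
    obtain ⟨x, hx, hxD⟩ := hDV
    have h1 : ((C - cm φ) * TT_to b x).trace = 0 := by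
      rw [Matrix.sub_mul, Matrix.trace_sub, hφ ⟨x, hx⟩, htr φ ⟨x, hx⟩, sub_self]
    rw [hxD] at h1
    exact hpos.ne' h1
  have hS := lsub_gens hG.closed ht hV (clo_SH ht hV (TT_to b (H : L)))
  apply le_antisymm
  · let K : LieSubalgebra ℝ L :=
      { (Submodule.span ℝ (gens G (A.map (TT_to b)) (SH G (A.map (TT_to b)) (TT_to b (H : L))))).comap (TT_to b) with
        lie_mem' := by
          intro x y hx hy
          change TT_to b ⁅x, y⁆ ∈ Submodule.span ℝ (gens G (A.map (TT_to b)) (SH G (A.map (TT_to b)) (TT_to b (H : L))))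
          rw [TT_lie_to]
          exact hS.brk _ hx _ hy }
    have hK : lsub A H ≤ K := by
      refine LieSubalgebra.lieSpan_le.2 ?_
      rintro x ⟨φ, hφ0, hφH, hx⟩
      change TT_to b x ∈ Submodule.span ℝ (gens G (A.map (TT_to b)) (SH G (A.map (TT_to b)) (TT_to b (H : L))))
      by_cases hx0 : x = 0
      · rw [hx0, map_zero]
        exact Submodule.zero_mem _
      · have h1 := (hmem φ x).1 hx
        refine Submodule.subset_span (Or.inl ⟨cm φ, ⟨⟨hcm φ, ?_, TT_to b x, ?_, h1⟩, by rw [htr φ H, hφH]⟩, h1⟩)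
        · intro h0
          exact hφ0 (hinj (by rw [h0, map_zero]))
        · intro h2
          exact hx0 (TT_inj_to h (by rw [h2, map_zero]))
    rintro _ ⟨x, hx, rfl⟩
    exact hK hx
  · refine Submodule.span_le.2 ?_
    have key : ∀ (φ : Module.Dual ℝ A) (X : Mat N), φ ≠ 0 → φ H = 0 → Wt G (A.map (TT_to b)) (cm φ) X → ∃ x ∈ lsub A H, TT_to b x = X := by
      intro φ X h0 hH hX
      obtain ⟨x, rfl⟩ := TT_surj_to h (hlie ▸ hX.1)
      exact ⟨x, LieSubalgebra.subset_lieSpan ⟨φ, h0, hH, (hmem φ x).2 hX⟩, rfl⟩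
    have key2 : ∀ D ∈ SH G (A.map (TT_to b)) (TT_to b (H : L)), ∃ φ : Module.Dual ℝ A, φ ≠ 0 ∧ φ H = 0 ∧ cm φ = D := by
      rintro D ⟨hD, hDH⟩
      obtain ⟨φ, rfl⟩ := hsurj D hD.1
      refine ⟨φ, ?_, by rw [← htr φ H, hDH], rfl⟩
      rintro rfl
      exact hD.2.1 (map_zero cm)
    rintro X (⟨D, hD, hX⟩ | ⟨D, hD, Y, Z, hY, hZ, rfl⟩)
    · obtain ⟨φ, h0, hH, rfl⟩ := key2 D hD
      obtain ⟨x, hx, rfl⟩ := key φ X h0 hH hX
      exact ⟨x, hx, rfl⟩
    · obtain ⟨φ, h0, hH, rfl⟩ := key2 D hD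
      obtain ⟨y, hy, rfl⟩ := key φ Y h0 hH hY
      rw [← map_neg] at hZ
      obtain ⟨z, hz, rfl⟩ := key (-φ) Z (neg_ne_zero.2 h0) (by rw [LinearMap.neg_apply, hH, neg_zero]) hZ
      exact ⟨⁅y, z⁆, (lsub A H).lie_mem hy hz, TT_lie_to b y z⟩

/-- **The source at `H`.** -/
theorem src_dirS [LieAlgebra.IsSimple ℝ L] (h : CartanBasis θ b) (hG : IsAdj b G)
    (hc : (G : Set (GL (Fin N) ℝ)) ⊆ closure (Subgroup.closure (Set.range fun x : L => ex (LinearMap.toMatrix b b (LieAlgebra.ad ℝ L x))) : Set (GL (Fin N) ℝ)))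
    (hA : MaxFlat θ A) {H : A} (hH : H ≠ 0) (hr : ∃ φ ∈ rootsL A, φ H = 0)
    (F : Subgroup G) (par : G → ℝ) (hF : ∀ f ∈ F, (f : GL (Fin N) ℝ) = ex (par f • TT_to b (H : L))) :
    Nonempty (DirS G F par (sH b A H)) := by
  have hSA := selfAdj_of_aut h hG
  have ht : ∀ X ∈ lie G, Xᵀ ∈ lie G := fun X hX => lie_transpose hSA hX
  have hV := isFlat_map h hG hA
  have hm := max_map h hG hA
  have hHV : TT_to b (H : L) ∈ A.map (TT_to b) := ⟨H, H.2, rfl⟩
  obtain ⟨S, hS⟩ : ∃ S, S = SH G (A.map (TT_to b)) (TT_to b (H : L)) := ⟨_, rfl⟩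
  have hclo : Clo G (A.map (TT_to b)) S := by rw [hS]; exact clo_SH ht hV _
  have hsem := sem_cls hSA.closed ht hV hm hclo
  have hls := lsub_gens hSA.closed ht hV hclo
  have hfin : Finite S := ((rt_finite hV).subset hclo.sub).to_subtype
  have hne : Nonempty S := by
    obtain ⟨φ, hφ, hφH⟩ := hr
    obtain ⟨C, hC, hCt⟩ := exists_C h hG hA hφ
    exact ⟨⟨C, by rw [hS]; exact ⟨hC, by rw [hCt, hφH]⟩⟩⟩
  have hsH : ∀ X ∈ Submodule.span ℝ (gens G (A.map (TT_to b)) S), X * TT_to b (H : L) = TT_to b (H : L) * X := by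
    intro X hX
    rw [hS, ← map_lsub h hG hA] at hX
    obtain ⟨x, hx, rfl⟩ := hX
    have h1 := Pool.Agent.Helper87.FQ.comm_lsub hx
    have h2 := TT_lie_to b (H : L) x
    rw [h1, map_zero] at h2
    exact (sub_eq_zero.1 h2.symm).symm
  have hp : ∀ C : S, ∃ p : Mat N, Rep (Submodule.span ℝ (gens G (A.map (TT_to b)) (cls S (C : Mat N)))) p ∧
      (∀ X ∈ Submodule.span ℝ (gens G (A.map (TT_to b)) S), X * p = p * X) ∧ TT_to b (H : L) * p = 0 := fun C =>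
    exists_p' h hG (lsub_gens hSA.closed ht hV (clo_cls hV hclo C)) (hsem.sim C) hls (hsem.le C) (fun Y hY => hsem.ideal C hY) (hV.mem _ hHV)
      fun X hX => hsH X (hsem.le C hX)
  choose p hp1 hp2 hp3 using hp
  rw [map_lsub h hG hA, ← hS]
  exact exists_dirS hSA.closed (hV.symm _ hHV) hls hsH hsem (Z := fun C : S => (C : Mat N))
    (fun C => mem_gens hSA.closed ht hV hm (clo_cls hV hclo C) (mem_cls_self C.2)) (fun C => hV.symm _ (hclo.sub C.2).1) (fun C => (hclo.sub C.2).2.1)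
    hp1 hp2 hp3 (fun σ ξ hξ h1 g => maut_gen h hG hc hA hH σ ξ hξ h1 g) F par hF

/-- `Dir` for the whole Levi group. -/
theorem src_dirL [LieAlgebra.IsSimple ℝ L] (h : CartanBasis θ b) (hG : IsAdj b G)
    (hc : (G : Set (GL (Fin N) ℝ)) ⊆ closure (Subgroup.closure (Set.range fun x : L => ex (LinearMap.toMatrix b b (LieAlgebra.ad ℝ L x))) : Set (GL (Fin N) ℝ)))
    (hA : MaxFlat θ A) {H : A} (hH : H ≠ 0) (hr : ∃ φ ∈ rootsL A, φ H = 0)
    (F : Subgroup G) (par : G → ℝ) (hF : ∀ f ∈ F, (f : GL (Fin N) ℝ) = ex (par f • TT_to b (H : L))) :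
    Nonempty (Dir G F par (Module.finrank ℝ (lsub A H))) := by
  obtain ⟨D⟩ := src_dirS h hG hc hA hH hr F par hF
  rw [← finrank_sH h]
  exact ⟨D.toDir⟩

theorem lsub_neg (H : A) : lsub A (-H) = lsub A H := by
  unfold lsub
  congr 1
  ext x
  constructor
  · rintro ⟨φ, h0, h1, h2⟩
    exact ⟨φ, h0, by rwa [map_neg, neg_eq_zero] at h1, h2⟩
  · rintro ⟨φ, h0, h1, h2⟩
    exact ⟨φ, h0, by rw [map_neg, h1, neg_zero], h2⟩

/-- The other direction. -/
theorem src_dirS' [LieAlgebra.IsSimple ℝ L] (h : CartanBasis θ b) (hG : IsAdj b G)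
    (hc : (G : Set (GL (Fin N) ℝ)) ⊆ closure (Subgroup.closure (Set.range fun x : L => ex (LinearMap.toMatrix b b (LieAlgebra.ad ℝ L x))) : Set (GL (Fin N) ℝ)))
    (hA : MaxFlat θ A) {H : A} (hH : H ≠ 0) (hr : ∃ φ ∈ rootsL A, φ H = 0)
    (F : Subgroup G) (par : G → ℝ) (hF : ∀ f ∈ F, (f : GL (Fin N) ℝ) = ex (par f • TT_to b (H : L))) :
    Nonempty (DirS G F (fun g => -par g) (sH b A H)) := by
  have h1 := src_dirS h hG hc hA (H := -H) (neg_ne_zero.2 hH) (by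
    obtain ⟨φ, h1, h2⟩ := hr
    exact ⟨φ, h1, by rw [map_neg, h2, neg_zero]⟩) F (fun g => -par g) fun f hf => by
      rw [hF f hf, Submodule.coe_neg, map_neg, smul_neg, neg_smul, neg_neg]
  unfold sH at h1 ⊢
  rwa [lsub_neg] at h1

theorem src_dirL' [LieAlgebra.IsSimple ℝ L] (h : CartanBasis θ b) (hG : IsAdj b G)
    (hc : (G : Set (GL (Fin N) ℝ)) ⊆ closure (Subgroup.closure (Set.range fun x : L => ex (LinearMap.toMatrix b b (LieAlgebra.ad ℝ L x))) : Set (GL (Fin N) ℝ)))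
    (hA : MaxFlat θ A) {H : A} (hH : H ≠ 0) (hr : ∃ φ ∈ rootsL A, φ H = 0)
    (F : Subgroup G) (par : G → ℝ) (hF : ∀ f ∈ F, (f : GL (Fin N) ℝ) = ex (par f • TT_to b (H : L))) :
    Nonempty (Dir G F (fun g => -par g) (Module.finrank ℝ (lsub A H))) := by
  obtain ⟨D⟩ := src_dirS' h hG hc hA hH hr F par hF
  rw [← finrank_sH h]
  exact ⟨D.toDir⟩

/-- **Everything for the one-parameter group of `H`.** -/
theorem src_levi [LieAlgebra.IsSimple ℝ L] (h : CartanBasis θ b) (hG : IsAdj b G)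
    (hc : (G : Set (GL (Fin N) ℝ)) ⊆ closure (Subgroup.closure (Set.range fun x : L => ex (LinearMap.toMatrix b b (LieAlgebra.ad ℝ L x))) : Set (GL (Fin N) ℝ)))
    (hA : MaxFlat θ A) {H : A} (hH : H ≠ 0) (hr : ∃ φ ∈ rootsL A, φ H = 0) :
    Nonempty (DirS G (opg G (TT_to b (H : L))) (pr G (TT_to b (H : L))) (sH b A H)) ∧
      Nonempty (DirS G (opg G (TT_to b (H : L))) (fun g => -pr G (TT_to b (H : L)) g) (sH b A H)) :=
  ⟨src_dirS h hG hc hA hH hr _ _ fun _ hf => pr_spec hf, src_dirS' h hG hc hA hH hr _ _ fun _ hf => pr_spec hf⟩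

/-- The centre of `sH` is zero. -/
theorem center_sH (h : CartanBasis θ b) (hG : IsAdj b G) (hA : MaxFlat θ A) (H : A) {X : Mat N} (hX : X ∈ sH b A H)
    (hc : ∀ Y ∈ sH b A H, X * Y = Y * X) : X = 0 := by
  have hSA := selfAdj_of_aut h hG
  have ht : ∀ X ∈ lie G, Xᵀ ∈ lie G := fun X hX => lie_transpose hSA hX
  have hV := isFlat_map h hG hA
  have hclo := clo_SH ht hV (TT_to b (H : L))
  rw [map_lsub h hG hA] at hX hc
  exact (sem_cls hSA.closed ht hV (max_map h hG hA) hclo).center (lsub_gens hSA.closed ht hV hclo).tr hX hc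

/-- `exp (t X)`, `X ∈ sH`, `X ≠ 0`, does not commute with `sH` for all small `t ≠ 0`. -/
theorem exists_NC_sH (h : CartanBasis θ b) (hG : IsAdj b G) (hA : MaxFlat θ A) (H : A) {X : Mat N} (hX : X ∈ sH b A H) (hX0 : X ≠ 0) :
    ∃ δ : ℝ, 0 < δ ∧ ∀ t : ℝ, t ≠ 0 → |t| < δ → (⟨ex (t • X), ex_mem_Cs ((sH b A H).smul_mem t hX)⟩ : Cs (sH b A H)) ∈ NC (sH b A H) := by
  obtain ⟨Y, hY, δ, hδ, h1⟩ := exists_NC (fun X hX hc => center_sH h hG hA H hX hc) hX hX0
  exact ⟨δ, hδ, fun t ht htδ => ⟨Y, hY, h1 t ht htδ⟩⟩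

end Pool.Agent.Helper50.FQ
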