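import Pool.Agent.Helper50.FQ.Sem

/-!
# Project FQ (MP_0f6f3f_an), layer SOURCES: ping-pong in the normal closure, for an ideal

`c ≤ s` a simple ideal, `p` a projection commuting with `s`, on a space on which `c` acts irreducibly. `t ∈ Cs s` does not commute with `c`: ping-pong on the matrices `A = p A`, with elements of the normal closure of `t` in `Cs s`. Proof as in `Helper50/SR/PpC.lean`, with `cl_sem`.
-/

set_option autoImplicit false

open MeasureTheory Filter Topology Matrix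

namespace Pool.Agent.Helper50.FQ

open Pool.Agent.Helper96.SA Pool.Agent.Helper96.FR Pool.Agent.Helper43.TA Pool.Agent.Helper43.TZ Pool.Agent.Helper50.SR

variable {M : ℕ} {s c : Submodule ℝ (Mat M)} {p : Mat M}

theorem pp_sem (hcs : c ≤ s) (hid : ∀ Y ∈ s, ∀ X ∈ c, Y * X - X * Y ∈ c) (h : Rep c p) (hsp : ∀ X ∈ s, X * p = p * X)
    {Z : Mat M} (hZ : Z ∈ c) (hZt : Zᵀ = Z) (hZ0 : Z ≠ 0) {t : Cs s}
    (ht : ∃ Y ∈ c, ((t : GL (Fin M) ℝ) : Mat M) * Y ≠ Y * ((t : GL (Fin M) ℝ) : Mat M)) (k : ℕ) :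
    ∃ (g : Fin k → Cs s) (D : Fin k → Set (Mat M)), (∀ l, g l ∈ Subgroup.normalClosure {t}) ∧ (∀ l, IsClosed (D l)) ∧
      (∀ A : Mat M, p * A = A → A ≠ 0 → {l | A ∈ D l}.ncard ≤ M) ∧
      ∀ A : Mat M, p * A = A → A ≠ 0 → {l | ((((g l)⁻¹ : Cs s) : GL (Fin M) ℝ) : Mat M) * A ∉ D l}.ncard ≤ M := by
  obtain ⟨P, lam, hPP, hPp, hpP, hP0, hP1, hlim⟩ := exists_top h hZ hZt hZ0
  have hle : Cs c ≤ Cs s := Cs_le (isClosed_Cs s) fun X hX => ex_mem_Cs (hcs hX)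
  obtain ⟨c0, hc⟩ := genpos_Cs h hPP hPp hpP hP0 hP1 k
  have hcomm : ∀ g ∈ Cs s, (g : Mat M) * p = p * (g : Mat M) := fun g hg => Cs_comm hsp hg
  obtain ⟨C, hC⟩ : ∃ C : Fin k → Mat M, C = fun l => (((c0 l : Cs c) : GL (Fin M) ℝ) : Mat M) := ⟨_, rfl⟩
  obtain ⟨E, hE⟩ : ∃ E : Fin k → Mat M, E = fun l => ((((c0 l)⁻¹ : Cs c) : GL (Fin M) ℝ) : Mat M) := ⟨_, rfl⟩
  have hCE : ∀ l, C l * E l = 1 := by
    intro l
    rw [hC, hE]
    show (((c0 l : Cs c) : GL (Fin M) ℝ) : Mat M) * ((((c0 l)⁻¹ : Cs c) : GL (Fin M) ℝ) : Mat M) = 1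
    rw [← Units.val_mul, ← Subgroup.coe_mul, mul_inv_cancel]
    rfl
  have hEC : ∀ l, E l * C l = 1 := by
    intro l
    rw [hC, hE]
    show ((((c0 l)⁻¹ : Cs c) : GL (Fin M) ℝ) : Mat M) * (((c0 l : Cs c) : GL (Fin M) ℝ) : Mat M) = 1
    rw [← Units.val_mul, ← Subgroup.coe_mul, inv_mul_cancel]
    rfl
  have hCp : ∀ l, C l * p = p * C l := by
    intro l
    rw [hC]
    exact hcomm _ (hle (c0 l).2)
  have hEp : ∀ l, E l * p = p * E l := by
    intro l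
    rw [hE]
    exact hcomm _ (hle ((c0 l)⁻¹ : Cs c).2)
  have hc' : ∀ t : Finset (Fin k), M < t.card → ∀ x : Fin M → ℝ, p *ᵥ x = x →
      ((∀ l ∈ t, P *ᵥ (E l *ᵥ x) = 0) → x = 0) ∧
      ((∀ l ∈ t, P *ᵥ (E l *ᵥ x) = E l *ᵥ x) → x = 0) := by
    intro t ht x hx
    have := hc t ht x hx
    rw [hE]
    exact this
  have hEQ : ∀ l (x : Fin M → ℝ), E l *ᵥ ((C l * P * E l) *ᵥ x) = P *ᵥ (E l *ᵥ x) := by
    intro l x
    rw [mulVec_mulVec, mulVec_mulVec]
    congr 1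
    rw [← Matrix.mul_assoc, ← Matrix.mul_assoc, hEC, Matrix.one_mul]
  refine pp_abs (S := Cs s) hcomm (Subgroup.normalClosure {t}) (fun l => C l * P * E l) ?_ ?_ ?_ ?_ ?_
  · intro l
    calc C l * P * E l * (C l * P * E l) = C l * P * (E l * C l) * P * E l := by
          simp only [Matrix.mul_assoc]
      _ = C l * P * E l := by
          rw [hEC, Matrix.mul_one, Matrix.mul_assoc (C l) P P, hPP]
  · intro l
    rw [← Matrix.mul_assoc, ← Matrix.mul_assoc, ← hCp, Matrix.mul_assoc (C l) p P, hpP]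
  · intro t ht x hx hQ
    refine (hc' t ht x hx).1 fun l hl => ?_
    rw [← hEQ, hQ l hl, mulVec_zero]
  · intro t ht x hx hQ
    refine (hc' t ht x hx).2 fun l hl => ?_
    rw [← hEQ, hQ l hl]
  · intro l U hU
    have hQlim : Tendsto (fun m : ℕ => C l * (Real.exp (-(lam * m)) •
        (((ex ((m : ℝ) • Z) : GL (Fin M) ℝ) : Mat M) * p)) * E l) atTop (𝓝 (C l * P * E l)) :=
      (tendsto_const_nhds.mul hlim).mul tendsto_const_nhds
    obtain ⟨m, hm⟩ := (hQlim.eventually (interior_mem_nhds.2 hU)).exists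
    have hexm : ex ((m : ℝ) • Z) ∈ Cs c := ex_mem_Cs (c.smul_mem _ hZ)
    obtain ⟨F, hF⟩ : ∃ F : GL (Fin M) ℝ → Mat M, F = fun (g : GL (Fin M) ℝ) => Real.exp (-(lam * m)) • ((g : Mat M) * p) :=
      ⟨_, rfl⟩
    have hFc : Continuous F := by
      rw [hF]
      have h2 : Continuous fun g : GL (Fin M) ℝ => (g : Mat M) * p := Units.continuous_val.mul continuous_const
      exact h2.const_smul (Real.exp (-(lam * m)))
    obtain ⟨x0, hx0⟩ : ∃ x0 : Cs c, x0 = c0 l * ⟨ex ((m : ℝ) • Z), hexm⟩ * (c0 l)⁻¹ := ⟨_, rfl⟩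
    have hg0 : F (x0 : GL (Fin M) ℝ) ∈ interior U := by
      have e1 : F (x0 : GL (Fin M) ℝ) =
          C l * (Real.exp (-(lam * m)) • (((ex ((m : ℝ) • Z) : GL (Fin M) ℝ) : Mat M) * p)) * E l := by
        have e2 : F (x0 : GL (Fin M) ℝ) = Real.exp (-(lam * m)) •
            (C l * ((ex ((m : ℝ) • Z) : GL (Fin M) ℝ) : Mat M) * E l * p) := by
          rw [hF, hC, hE, hx0]
          rfl
        rw [e2, Matrix.mul_smul, Matrix.smul_mul]
        congr 1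
        rw [Matrix.mul_assoc _ (E l) p, hEp]
        simp only [Matrix.mul_assoc]
      rw [e1]
      exact hm
    -- the element is in the closure of the normal closure
    have hx1 : (x0 : GL (Fin M) ℝ) ∈ closure ((((Subgroup.normalClosure {t} : Subgroup (Cs s)).map (Cs s).subtype : Subgroup (GL (Fin M) ℝ))) : Set (GL (Fin M) ℝ)) :=
      cl_sem hcs hid h.sim ht x0.2
    obtain ⟨g1, hgU, hgN⟩ := mem_closure_iff.1 hx1 _ (isOpen_interior.preimage hFc) hg0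
    obtain ⟨g, hg, rfl⟩ := Subgroup.mem_map.1 hgN
    refine ⟨g, hg, Real.exp (lam * m), Real.exp_pos _, ?_⟩
    rw [← Real.exp_neg]
    have := interior_subset hgU
    rw [hF] at this
    exact this

end Pool.Agent.Helper50.FQ
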