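import Pool.Agent.Helper50.SR.Dir
import Pool.Agent.Helper96.TO.Sim

/-!
# Project FQ (MP_0f6f3f_an), layer SOURCES: sums of commuting simple algebras of matrices

`Sem s c`: `s` is the sum of the simple algebras `c k ≤ s`, two of them are equal or commute. `Cs_conj'`: the group `Cs s` normalises each `c k`. `center_sem`: the centre of `s` is `0` (if `s` is closed under transposition). `cl t`: the closure in `GL` of the normal closure of
`t ∈ Cs s`. `cl_sem`: it contains `Cs (c k)` if `t` does not commute with `c k`.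
-/

set_option autoImplicit false

open MeasureTheory Filter Topology Matrix

namespace Pool.Agent.Helper50.FQ

open Pool.Agent.Helper96.SA Pool.Agent.Helper96.FR Pool.Agent.Helper43.TA Pool.Agent.Helper43.TZ Pool.Agent.Helper50.SR

variable {M : ℕ} {s : Submodule ℝ (Mat M)} {κ : Type} {c : κ → Submodule ℝ (Mat M)}

/-- `s` is the sum of the simple algebras `c k`, any two of them are equal or commute. -/
structure Sem (s : Submodule ℝ (Mat M)) (c : κ → Submodule ℝ (Mat M)) : Prop where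
  le : ∀ k, c k ≤ s
  sup : s ≤ ⨆ k, c k
  brk : ∀ k, ∀ X ∈ c k, ∀ Y ∈ c k, X * Y - Y * X ∈ c k
  sim : ∀ k, IsSim (c k)
  com : ∀ j k, c j = c k ∨ ∀ X ∈ c j, ∀ Y ∈ c k, X * Y = Y * X

private theorem conj_core50 {A : Type} [NormedRing A] [NormedAlgebra ℝ A] [CompleteSpace A] {s : Submodule ℝ A}
    (hs : IsClosed (s : Set A)) {X Y : A} (hb : ∀ Z ∈ s, Y * Z - Z * Y ∈ s) (hX : X ∈ s) :
    NormedSpace.exp Y * X * NormedSpace.exp (-Y) ∈ s := by
  let i1 : NormedAlgebra ℚ A := NormedAlgebra.restrictScalars ℚ ℝ A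
  let i2 : NormedAlgebra ℚ Aᵐᵒᵖ := NormedAlgebra.restrictScalars ℚ ℝ Aᵐᵒᵖ
  let i3 : NormedAlgebra ℚ (A →L[ℝ] A) := NormedAlgebra.restrictScalars ℚ ℝ (A →L[ℝ] A)
  let l : A →+* (A →L[ℝ] A) :=
    { toFun := fun W => ContinuousLinearMap.mul ℝ A W
      map_one' := by
        apply ContinuousLinearMap.ext
        intro Z
        show 1 * Z = Z
        exact one_mul Z
      map_mul' := fun W W' => by
        apply ContinuousLinearMap.ext
        intro Z
        show (W * W') * Z = W * (W' * Z)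
        exact mul_assoc W W' Z
      map_zero' := by
        apply ContinuousLinearMap.ext
        intro Z
        show 0 * Z = 0
        exact zero_mul Z
      map_add' := fun W W' => by
        apply ContinuousLinearMap.ext
        intro Z
        show (W + W') * Z = W * Z + W' * Z
        exact add_mul W W' Z }
  let r : Aᵐᵒᵖ →+* (A →L[ℝ] A) :=
    { toFun := fun W => (ContinuousLinearMap.mul ℝ A).flip (MulOpposite.unop W)
      map_one' := by
        apply ContinuousLinearMap.ext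
        intro Z
        show Z * 1 = Z
        exact mul_one Z
      map_mul' := fun W W' => by
        apply ContinuousLinearMap.ext
        intro Z
        show Z * (MulOpposite.unop W' * MulOpposite.unop W) = (Z * MulOpposite.unop W') * MulOpposite.unop W
        exact (mul_assoc _ _ _).symm
      map_zero' := by
        apply ContinuousLinearMap.ext
        intro Z
        show Z * 0 = 0
        exact mul_zero Z
      map_add' := fun W W' => by
        apply ContinuousLinearMap.ext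
        intro Z
        show Z * (MulOpposite.unop W + MulOpposite.unop W') = Z * MulOpposite.unop W + Z * MulOpposite.unop W'
        exact mul_add _ _ _ }
  have hl : ∀ W, NormedSpace.exp (l W) = l (NormedSpace.exp W) := fun W =>
    (NormedSpace.map_exp l (ContinuousLinearMap.mul ℝ A).continuous W).symm
  have hr : ∀ W, NormedSpace.exp (r W) = r (NormedSpace.exp W) := fun W =>
    (NormedSpace.map_exp r ((ContinuousLinearMap.mul ℝ A).flip.continuous.comp MulOpposite.continuous_unop) W).symm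
  have hcm : Commute (l Y) (r (MulOpposite.op (-Y))) := by
    apply ContinuousLinearMap.ext
    intro Z
    show Y * (Z * -Y) = (Y * Z) * -Y
    rw [mul_assoc]
  have h1 : NormedSpace.exp (l Y + r (MulOpposite.op (-Y))) = l (NormedSpace.exp Y) * r (MulOpposite.op (NormedSpace.exp (-Y))) := by
    rw [NormedSpace.exp_add_of_commute hcm, hl, hr, NormedSpace.exp_op]
  have h2 : NormedSpace.exp (l Y + r (MulOpposite.op (-Y))) X = NormedSpace.exp Y * X * NormedSpace.exp (-Y) := by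
    rw [h1]
    show NormedSpace.exp Y * (X * NormedSpace.exp (-Y)) = _
    rw [mul_assoc]
  have h3 := NormedSpace.exp_series_hasSum_exp' (𝕂 := ℝ) (l Y + r (MulOpposite.op (-Y)))
  have h4 := (ContinuousLinearMap.apply ℝ A X).hasSum h3
  have h5 : ∀ n : ℕ, ((l Y + r (MulOpposite.op (-Y))) ^ n) X ∈ s := by
    intro n
    induction n with
    | zero =>
      rw [pow_zero]
      exact hX
    | succ n ih =>
      rw [pow_succ']
      have h6 := hb _ ih
      show Y * (((l Y + r (MulOpposite.op (-Y))) ^ n) X) + (((l Y + r (MulOpposite.op (-Y))) ^ n) X) * -Y ∈ s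
      rw [mul_neg, ← sub_eq_add_neg]
      exact h6
  rw [← h2]
  refine hs.mem_of_tendsto h4 (Eventually.of_forall fun t => ?_)
  refine Submodule.sum_mem _ fun n _ => ?_
  show (((n.factorial : ℝ)⁻¹ • (l Y + r (MulOpposite.op (-Y))) ^ n) X) ∈ s
  rw [_root_.smul_apply]
  exact s.smul_mem _ (h5 n)

/-- Conjugation by `exp Y` preserves a space which is stable under `ad Y`. -/
theorem conj_mem' {c : Submodule ℝ (Mat M)} {Y : Mat M} (hb : ∀ X ∈ c, Y * X - X * Y ∈ c) {X : Mat M} (hX : X ∈ c) :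
    ((ex Y : GL (Fin M) ℝ) : Mat M) * X * (((ex Y)⁻¹ : GL (Fin M) ℝ) : Mat M) ∈ c := by
  -- the path `t ↦ ex (t Y) X ex (-t Y)` stays in `c`
  have hc : IsClosed (c : Set (Mat M)) := c.closed_of_finiteDimensional
  rw [← ex_neg, ex_coe, ex_coe]
  open scoped Matrix.Norms.Operator in exact conj_core50 hc hb hX

namespace Sem

theorem ideal (h : Sem s c) (k : κ) {Y : Mat M} (hY : Y ∈ s) : ∀ X ∈ c k, Y * X - X * Y ∈ c k := by
  intro X hX
  have hY' := h.sup hY
  refine Submodule.iSup_induction (motive := fun Y => Y * X - X * Y ∈ c k) c hY' ?_ ?_ ?_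
  · intro j Y hY
    rcases h.com j k with h1 | h1
    · rw [h1] at hY
      exact h.brk k Y hY X hX
    · rw [h1 Y hY X hX, sub_self]
      exact (c k).zero_mem
  · rw [Matrix.zero_mul, Matrix.mul_zero, sub_zero]
    exact (c k).zero_mem
  · intro Y Z h1 h2
    have e : (Y + Z) * X - X * (Y + Z) = (Y * X - X * Y) + (Z * X - X * Z) := by
      rw [Matrix.add_mul, Matrix.mul_add]
      abel
    rw [e]
    exact (c k).add_mem h1 h2

theorem brk_s (h : Sem s c) : ∀ X ∈ s, ∀ Y ∈ s, X * Y - Y * X ∈ s := by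
  intro X hX Y hY
  refine Submodule.iSup_induction (motive := fun Y => X * Y - Y * X ∈ s) c (h.sup hY) ?_ ?_ ?_
  · intro j Y hY
    exact h.le j (h.ideal j hX Y hY)
  · rw [Matrix.zero_mul, Matrix.mul_zero, sub_zero]
    exact s.zero_mem
  · intro Y Z h1 h2
    have e : X * (Y + Z) - (Y + Z) * X = (X * Y - Y * X) + (X * Z - Z * X) := by
      rw [Matrix.add_mul, Matrix.mul_add]
      abel
    rw [e]
    exact s.add_mem h1 h2

/-- An element which commutes with all `c k` commutes with `s`. -/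
theorem comm_of (h : Sem s c) {T : Mat M} (hT : ∀ k, ∀ X ∈ c k, T * X = X * T) {X : Mat M} (hX : X ∈ s) : T * X = X * T := by
  refine Submodule.iSup_induction (motive := fun X => T * X = X * T) c (h.sup hX) hT ?_ ?_
  · rw [Matrix.zero_mul, Matrix.mul_zero]
  · intro Y Z h1 h2
    rw [Matrix.mul_add, Matrix.add_mul, h1, h2]

/-- `s` is perfect. -/
theorem perfect (h : Sem s c) : s ≤ Submodule.span ℝ {W | ∃ X ∈ s, ∃ Y ∈ s, W = X * Y - Y * X} := by
  refine h.sup.trans (iSup_le fun k => ?_)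
  obtain ⟨S, hS⟩ : ∃ S : Submodule ℝ (Mat M), S = Submodule.span ℝ {W | ∃ X ∈ c k, ∃ Y ∈ c k, W = X * Y - Y * X} := ⟨_, rfl⟩
  have hle : S ≤ c k := by
    rw [hS]
    refine Submodule.span_le.2 ?_
    rintro W ⟨X, hX, Y, hY, rfl⟩
    exact h.brk k X hX Y hY
  have h2 : c k ≤ S := by
    rcases (h.sim k).ideal S hle (fun X hX Y hY => by
      rw [hS]
      exact Submodule.subset_span ⟨Y, hY, X, hle hX, rfl⟩) with h1 | h1
    · exfalso
      obtain ⟨X, hX, Y, hY, hXY⟩ := (h.sim k).ne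
      have h3 : X * Y - Y * X ∈ S := by
        rw [hS]
        exact Submodule.subset_span ⟨X, hX, Y, hY, rfl⟩
      rw [h1, Submodule.mem_bot, sub_eq_zero] at h3
      exact hXY h3
    · exact h1.ge
  refine h2.trans ?_
  rw [hS]
  refine Submodule.span_mono ?_
  rintro W ⟨X, hX, Y, hY, rfl⟩
  exact ⟨X, h.le k hX, Y, h.le k hY, rfl⟩

/-- The centre is zero. -/
theorem center (h : Sem s c) (ht : ∀ X ∈ s, Xᵀ ∈ s) {X : Mat M} (hX : X ∈ s) (hc : ∀ Y ∈ s, X * Y = Y * X) : X = 0 := by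
  by_contra hne
  have hc' : ∀ Y ∈ s, Xᵀ * Y = Y * Xᵀ := by
    intro Y hY
    have h1 := congrArg Matrix.transpose (hc _ (ht Y hY))
    rw [Matrix.transpose_mul, Matrix.transpose_mul, Matrix.transpose_transpose] at h1
    exact h1.symm
  have key : ∀ W ∈ s, (W * Xᵀ).trace = 0 := by
    intro W hW
    have hW' := h.perfect hW
    refine Submodule.span_induction (p := fun W _ => (W * Xᵀ).trace = 0) ?_ ?_ ?_ ?_ hW'
    · rintro W ⟨Y, hY, Z, hZ, rfl⟩
      have e1 : (Y * Z * Xᵀ).trace = (Z * Y * Xᵀ).trace := by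
        rw [Matrix.mul_assoc, ← hc' Z hZ, ← Matrix.mul_assoc, Matrix.trace_mul_comm, ← Matrix.mul_assoc]
      rw [Matrix.sub_mul, Matrix.trace_sub, e1, sub_self]
    · rw [Matrix.zero_mul, Matrix.trace_zero]
    · intro A B _ _ h1 h2
      rw [Matrix.add_mul, Matrix.trace_add, h1, h2, add_zero]
    · intro r A _ h1
      rw [Matrix.smul_mul, Matrix.trace_smul, h1, smul_zero]
  exact (Pool.Agent.Helper96.TO.trace_mul_transpose_pos hne).ne' (key X hX)

end Sem

/-- The group elements `g` with `g c g⁻¹ ⊆ c` and `g⁻¹ c g ⊆ c`. -/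
private def norm50 (s : Submodule ℝ (Mat M)) : Subgroup (GL (Fin M) ℝ) where
  carrier := {g | ∀ X ∈ s, (g : Mat M) * X * ((g⁻¹ : GL (Fin M) ℝ) : Mat M) ∈ s ∧
    ((g⁻¹ : GL (Fin M) ℝ) : Mat M) * X * (g : Mat M) ∈ s}
  mul_mem' := by
    intro a b ha hb X hX
    simp only [Set.mem_ofPred_eq] at ha hb
    refine ⟨?_, ?_⟩
    · have h := (ha _ (hb X hX).1).1
      have e : ((a * b : GL (Fin M) ℝ) : Mat M) * X * (((a * b)⁻¹ : GL (Fin M) ℝ) : Mat M) =
          (a : Mat M) * ((b : Mat M) * X * ((b⁻¹ : GL (Fin M) ℝ) : Mat M)) * ((a⁻¹ : GL (Fin M) ℝ) : Mat M) := by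
        rw [_root_.mul_inv_rev, Units.val_mul, Units.val_mul]
        simp only [mul_assoc]
      rw [e]
      exact h
    · have h := (hb _ (ha X hX).2).2
      have e : (((a * b)⁻¹ : GL (Fin M) ℝ) : Mat M) * X * ((a * b : GL (Fin M) ℝ) : Mat M) =
          ((b⁻¹ : GL (Fin M) ℝ) : Mat M) * (((a⁻¹ : GL (Fin M) ℝ) : Mat M) * X * (a : Mat M)) * (b : Mat M) := by
        rw [_root_.mul_inv_rev, Units.val_mul, Units.val_mul]
        simp only [mul_assoc]
      rw [e]
      exact h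
  one_mem' := by
    intro X hX
    rw [inv_one, Units.val_one, one_mul, mul_one]
    exact ⟨hX, hX⟩
  inv_mem' := by
    intro a ha X hX
    simp only [Set.mem_ofPred_eq] at ha
    rw [inv_inv]
    exact ⟨(ha X hX).2, (ha X hX).1⟩

/-- `Cs s` normalises a space which is stable under `ad Y`, `Y ∈ s`. -/
theorem Cs_conj' {c : Submodule ℝ (Mat M)} (hb : ∀ Y ∈ s, ∀ X ∈ c, Y * X - X * Y ∈ c) {g : GL (Fin M) ℝ} (hg : g ∈ Cs s) {X : Mat M} (hX : X ∈ c) :
    (g : Mat M) * X * ((g⁻¹ : GL (Fin M) ℝ) : Mat M) ∈ c := by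
  have hscl : IsClosed (c : Set (Mat M)) := Submodule.closed_of_finiteDimensional c
  have contv : Continuous fun g : GL (Fin M) ℝ => (g : Mat M) := Units.continuous_val
  have conti : Continuous fun g : GL (Fin M) ℝ => ((g⁻¹ : GL (Fin M) ℝ) : Mat M) := contv.comp continuous_inv
  have hcl : IsClosed ((norm50 c : Subgroup (GL (Fin M) ℝ)) : Set (GL (Fin M) ℝ)) := by
    have e : ((norm50 c : Subgroup (GL (Fin M) ℝ)) : Set (GL (Fin M) ℝ)) =
        ⋂ X ∈ c, {g : GL (Fin M) ℝ | (g : Mat M) * X * ((g⁻¹ : GL (Fin M) ℝ) : Mat M) ∈ c ∧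
          ((g⁻¹ : GL (Fin M) ℝ) : Mat M) * X * (g : Mat M) ∈ c} := by
      ext g
      simp only [Set.mem_iInter, Set.mem_ofPred_eq]
      rfl
    rw [e]
    refine isClosed_biInter fun X _ => ?_
    exact (hscl.preimage ((contv.mul continuous_const).mul conti)).inter
      (hscl.preimage ((conti.mul continuous_const).mul contv))
  have hle : Cs s ≤ norm50 c := by
    refine Cs_le hcl ?_
    intro Y hY X hX
    refine ⟨conj_mem' (hb Y hY) hX, ?_⟩
    have h := conj_mem' (c := c) (Y := -Y) (fun X hX => by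
      have h1 := c.neg_mem (hb Y hY X hX)
      have e : -Y * X - X * -Y = -(Y * X - X * Y) := by
        rw [Matrix.neg_mul, Matrix.mul_neg]
        abel
      rw [e]
      exact h1) hX
    rw [ex_neg, inv_inv] at h
    exact h
  exact (hle hg X hX).1

/-- The closure of the normal closure of `t`, in `GL`. -/
def cl (t : Cs s) : Subgroup (GL (Fin M) ℝ) :=
  ((Subgroup.normalClosure {t} : Subgroup (Cs s)).map (Cs s).subtype).topologicalClosure

theorem cl_closed (t : Cs s) : IsClosed (cl t : Set (GL (Fin M) ℝ)) :=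
  Subgroup.isClosed_topologicalClosure _

private theorem mem_cl50 {t g : Cs s} (hg : g ∈ (Subgroup.normalClosure {t} : Subgroup (Cs s))) :
    (g : GL (Fin M) ℝ) ∈ cl t :=
  Subgroup.le_topologicalClosure _ (Subgroup.mem_map.2 ⟨g, hg, rfl⟩)

private theorem conj_cl50 (t : Cs s) {h : GL (Fin M) ℝ} (hh : h ∈ Cs s) {g : GL (Fin M) ℝ} (hg : g ∈ cl t) :
    h * g * h⁻¹ ∈ cl t := by
  have hc : Continuous fun g : GL (Fin M) ℝ => h * g * h⁻¹ :=
    (continuous_const.mul continuous_id).mul continuous_const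
  refine map_mem_closure (f := fun g : GL (Fin M) ℝ => h * g * h⁻¹) hc (s := (((Subgroup.normalClosure {t} :
    Subgroup (Cs s)).map (Cs s).subtype : Subgroup (GL (Fin M) ℝ)) : Set (GL (Fin M) ℝ))) hg ?_
  intro x hx
  rw [SetLike.mem_coe, Subgroup.mem_map] at hx
  obtain ⟨y, hy, rfl⟩ := hx
  show h * (Cs s).subtype y * h⁻¹ ∈ ((Subgroup.normalClosure {t} : Subgroup (Cs s)).map (Cs s).subtype)
  rw [Subgroup.mem_map]
  refine ⟨⟨h, hh⟩ * y * ⟨h, hh⟩⁻¹, ?_, rfl⟩
  exact (Subgroup.normalClosure_normal (s := {t})).conj_mem y hy ⟨h, hh⟩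

private theorem diff50 (t : Cs s) {Y : Mat M} (hY : Y ∈ s) :
    Y - ((t : GL (Fin M) ℝ) : Mat M) * Y * (((t : GL (Fin M) ℝ)⁻¹ : GL (Fin M) ℝ) : Mat M) ∈ lie (cl t) := by
  rw [mem_lie]
  intro τ
  set T : GL (Fin M) ℝ := (t : GL (Fin M) ℝ) with hT
  have h := trotter (τ • Y) (-(τ • ((T : Mat M) * Y * ((T⁻¹ : GL (Fin M) ℝ) : Mat M))))
  rw [← sub_eq_add_neg, ← smul_sub] at h
  refine (cl_closed t).mem_of_tendsto h (Eventually.of_forall fun n => ?_)
  refine (cl t).pow_mem ?_ n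
  have hg : ex ((n : ℝ)⁻¹ • (τ • Y)) ∈ Cs s := ex_mem_Cs (s.smul_mem _ (s.smul_mem _ hY))
  set g : GL (Fin M) ℝ := ex ((n : ℝ)⁻¹ • (τ • Y)) with hgd
  have e1 : (n : ℝ)⁻¹ • (-(τ • ((T : Mat M) * Y * ((T⁻¹ : GL (Fin M) ℝ) : Mat M)))) =
      (T : Mat M) * (-((n : ℝ)⁻¹ • (τ • Y))) * ((T⁻¹ : GL (Fin M) ℝ) : Mat M) := by
    simp only [smul_neg, mul_neg, neg_mul, mul_smul_comm, smul_mul_assoc]
  rw [e1, ex_conj, ex_neg, ← hgd]
  have e2 : g * (T * g⁻¹ * T⁻¹) = (g * T * g⁻¹) * T⁻¹ := by group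
  rw [e2]
  have hTm : T ∈ cl t := mem_cl50 (Subgroup.subset_normalClosure (Set.mem_singleton t))
  exact (cl t).mul_mem (conj_cl50 t hg hTm) ((cl t).inv_mem hTm)

/-- The closure of the normal closure of an element which does not commute with the ideal `c` contains `Cs c`. -/
theorem cl_sem {c : Submodule ℝ (Mat M)} (hcs : c ≤ s) (hid : ∀ Y ∈ s, ∀ X ∈ c, Y * X - X * Y ∈ c) (hsim : IsSim c) {t : Cs s}
    (ht : ∃ Y ∈ c, ((t : GL (Fin M) ℝ) : Mat M) * Y ≠ Y * ((t : GL (Fin M) ℝ) : Mat M)) : Cs c ≤ cl t := by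
  obtain ⟨L, hL⟩ := lie_submodule (cl_closed t)
  have hmem : ∀ Z, Z ∈ L ↔ Z ∈ lie (cl t) := fun Z => by rw [← SetLike.mem_coe, hL]
  have hid' : L ⊓ c = ⊥ ∨ L ⊓ c = c := by
    refine hsim.ideal (L ⊓ c) inf_le_right ?_
    intro X hX Y hY
    rw [Submodule.mem_inf] at hX ⊢
    refine ⟨brk_mem_of_conj fun τ => ?_, hid Y (hcs hY) X hX.2⟩
    rw [hmem]
    have hXl := (hmem X).1 hX.1
    rw [mem_lie] at hXl ⊢
    intro r
    have e : r • (((ex (τ • Y) : GL (Fin M) ℝ) : Mat M) * X * (((ex (τ • Y))⁻¹ : GL (Fin M) ℝ) : Mat M)) =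
        ((ex (τ • Y) : GL (Fin M) ℝ) : Mat M) * (r • X) * (((ex (τ • Y))⁻¹ : GL (Fin M) ℝ) : Mat M) := by
      rw [mul_smul_comm, smul_mul_assoc]
    rw [e, ex_conj]
    exact conj_cl50 t (ex_mem_Cs (s.smul_mem _ (hcs hY))) (hXl r)
  have hne : L ⊓ c ≠ ⊥ := by
    obtain ⟨Y, hY, hTY⟩ := ht
    intro h0
    have hZ : Y - ((t : GL (Fin M) ℝ) : Mat M) * Y * (((t : GL (Fin M) ℝ)⁻¹ : GL (Fin M) ℝ) : Mat M) ∈ L ⊓ c := by
      rw [Submodule.mem_inf]
      exact ⟨(hmem _).2 (diff50 t (hcs hY)), c.sub_mem hY (Cs_conj' hid t.2 hY)⟩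
    rw [h0, Submodule.mem_bot, sub_eq_zero] at hZ
    apply hTY
    have h1 : Y * ((t : GL (Fin M) ℝ) : Mat M) =
        ((t : GL (Fin M) ℝ) : Mat M) * Y * (((t : GL (Fin M) ℝ)⁻¹ : GL (Fin M) ℝ) : Mat M) * ((t : GL (Fin M) ℝ) : Mat M) := by
      rw [← hZ]
    rw [h1, mul_assoc (((t : GL (Fin M) ℝ) : Mat M) * Y), Units.inv_mul, mul_one]
  have hs : L ⊓ c = c := hid'.resolve_left hne
  refine Cs_le (cl_closed t) ?_
  intro X hX
  have hX' : X ∈ L ⊓ c := by
    rw [hs]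
    exact hX
  have h1 := mem_lie.1 ((hmem X).1 (Submodule.mem_inf.1 hX').1) 1
  rwa [one_smul] at h1

/-- The family in `Cs s`. -/
theorem exists_famSem (hs0 : s ≠ ⊥) (hcen : ∀ X ∈ s, (∀ Y ∈ s, X * Y = Y * X) → X = 0) :
    ∃ F : Fam (Cs s), F.d1 = Module.finrank ℝ s ∧ F.Sg ⊆ NC s := by
  refine exists_fam (Cs s) (isClosed_Cs s) s (fun X hX => lie_Cs hX) hs0 (NC s) ?_
  intro t τ X hX hX0 hτ hτ0 hlim
  by_contra hcon
  push Not at hcon
  have hc : ∀ n, ∀ Y ∈ s, ((t n : GL (Fin M) ℝ) : Mat M) * Y = Y * ((t n : GL (Fin M) ℝ) : Mat M) := by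
    intro n Y hY
    by_contra hne
    exact hcon n ⟨Y, hY, hne⟩
  apply hX0
  refine hcen X hX (fun Y hY => ?_)
  have h1 : Tendsto (fun n => ((τ n)⁻¹ • (((t n : GL (Fin M) ℝ) : Mat M) - 1)) * Y) atTop (𝓝 (X * Y)) :=
    hlim.mul_const Y
  have h2 : Tendsto (fun n => Y * ((τ n)⁻¹ • (((t n : GL (Fin M) ℝ) : Mat M) - 1))) atTop (𝓝 (Y * X)) :=
    hlim.const_mul Y
  have h3 : (fun n => ((τ n)⁻¹ • (((t n : GL (Fin M) ℝ) : Mat M) - 1)) * Y) =
      fun n => Y * ((τ n)⁻¹ • (((t n : GL (Fin M) ℝ) : Mat M) - 1)) := by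
    funext n
    rw [Matrix.smul_mul, Matrix.mul_smul, Matrix.sub_mul, Matrix.mul_sub, hc n Y hY, Matrix.one_mul, Matrix.mul_one]
  rw [h3] at h1
  exact tendsto_nhds_unique h1 h2

/-- `exp (t X)` does not commute with `s` for all small `t ≠ 0`. -/
theorem exists_NC (hcen : ∀ X ∈ s, (∀ Y ∈ s, X * Y = Y * X) → X = 0) {X : Mat M} (hX : X ∈ s) (hX0 : X ≠ 0) :
    ∃ Y ∈ s, ∃ δ : ℝ, 0 < δ ∧ ∀ t : ℝ, t ≠ 0 → |t| < δ → ((ex (t • X) : GL (Fin M) ℝ) : Mat M) * Y ≠ Y * ((ex (t • X) : GL (Fin M) ℝ) : Mat M) := by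
  obtain ⟨Y, hY, hXY⟩ : ∃ Y ∈ s, X * Y ≠ Y * X := by
    by_contra hcon
    push Not at hcon
    exact hX0 (hcen X hX hcon)
  refine ⟨Y, hY, ?_⟩
  by_contra hcon
  push Not at hcon
  have h1 : ∀ n : ℕ, ∃ t : ℝ, t ≠ 0 ∧ |t| < 1 / ((n : ℝ) + 1) ∧ ((ex (t • X) : GL (Fin M) ℝ) : Mat M) * Y = Y * ((ex (t • X) : GL (Fin M) ℝ) : Mat M) := by
    intro n
    obtain ⟨t, h1, h2, h3⟩ := hcon (1 / ((n : ℝ) + 1)) (by positivity)
    exact ⟨t, h1, h2, h3⟩
  choose t ht0 ht1 ht2 using h1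
  have htl : Tendsto t atTop (𝓝[≠] 0) := by
    refine tendsto_nhdsWithin_iff.2 ⟨?_, Eventually.of_forall ht0⟩
    refine squeeze_zero_norm (fun n => (ht1 n).le) ?_
    exact tendsto_one_div_add_atTop_nhds_zero_nat
  apply hXY
  open scoped Matrix.Norms.Operator in
  have h2 : HasDerivAt (fun t : ℝ => NormedSpace.exp (t • X)) (X * NormedSpace.exp ((0 : ℝ) • X)) 0 :=
    hasDerivAt_exp_smul_const' X 0
  have h3 : HasDerivAt (fun t : ℝ => NormedSpace.exp (t • X) * Y - Y * NormedSpace.exp (t • X)) (X * Y - Y * X) 0 := by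
    have h4 := (h2.mul_const Y).sub (h2.const_mul Y)
    rw [zero_smul, NormedSpace.exp_zero, mul_one] at h4
    exact h4
  have h4 := (hasDerivAt_iff_tendsto_slope_zero.1 h3).comp htl
  have h5 : Tendsto (fun _ : ℕ => (0 : Mat M)) atTop (𝓝 (X * Y - Y * X)) := by
    refine h4.congr fun n => ?_
    have e := ht2 n
    rw [ex_coe] at e
    simp only [Function.comp, zero_add, zero_smul, NormedSpace.exp_zero, one_mul, mul_one, sub_self, e, smul_zero]
  exact sub_eq_zero.1 (tendsto_nhds_unique h5 tendsto_const_nhds)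

end Pool.Agent.Helper50.FQ
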